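import Pool.Agent.FBK.Vec

set_option autoImplicit false

/-!
Maps on closed oriented surfaces and their polyhedral immersions in three-space.

A map is given by a finite set `D` of darts (directed edges), a permutation `s` (the next dart
around the tail of the dart) and a fixed point free involution `a` (reversal of the dart);
its vertices, edges and faces are the cycles of `s`, `a` and `s * a`.
-/

namespace Pool.Agent.FBK

/-- the set of cycles of a permutation (fixed points are cycles as well) -/
abbrev Cyc {D : Type} (p : Equiv.Perm D) : Type := Quotient (Equiv.Perm.SameCycle.setoid p)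

/-- the cycle of an element -/
def toCyc {D : Type} (p : Equiv.Perm D) (d : D) : Cyc p := Quotient.mk _ d

/-- the length of a cycle; for a vertex of a map this is its valence -/
noncomputable def len {D : Type} (p : Equiv.Perm D) (v : Cyc p) : ℕ :=
  Nat.card {d : D // toCyc p d = v}

/-- the Euler characteristic (vertices minus edges plus faces) of the map `(s, a)` -/
noncomputable def euler {D : Type} (s a : Equiv.Perm D) : ℤ :=
  (Nat.card (Cyc s) : ℤ) - (Nat.card (Cyc a) : ℤ) + (Nat.card (Cyc (s * a)) : ℤ)

/-- A polyhedral immersion of the map `(s, a)`: positions of the vertices in three-space (the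
position of the tail of every dart) and normal vectors of the faces such that every face has at
least three corners and is a strictly convex plane polygon whose corners follow one another as
in the map, such that faces that share an edge are never coplanar, and such that two faces at a
vertex that have no edge at this vertex in common meet only in the vertex (locally). -/
structure Immersion {D : Type} (s a : Equiv.Perm D) where
  pos : D → Fin 3 → ℝ
  nrm : D → Fin 3 → ℝ
  pos_vertex : ∀ d, pos (s d) = pos d
  nrm_face : ∀ d, nrm (s (a d)) = nrm d
  three_corners : ∀ d, s (a d) ≠ d ∧ s (a (s (a d))) ≠ d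
  planar : ∀ d d', (s * a).SameCycle d d' → dot3 (nrm d) (pos d' - pos d) = 0
  convex : ∀ d d', (s * a).SameCycle d d' → d' ≠ d → d' ≠ s (a d) →
    0 < det3 (nrm d) (pos (a d) - pos d) (pos d' - pos d)
  not_coplanar : ∀ d (t : ℝ), nrm (a d) ≠ t • nrm d
  embedded : ∀ d d', s.SameCycle d d' → d' ≠ d → d' ≠ s d → s d' ≠ d →
    ∀ α β γ δ : ℝ, 0 ≤ α → 0 ≤ β → 0 ≤ γ → 0 ≤ δ →
      α • (pos (a d) - pos d) + β • (pos (a (s d)) - pos d)
        = γ • (pos (a d') - pos d) + δ • (pos (a (s d')) - pos d) → α = 0 ∧ β = 0

/-- the vertices that meet edges of both colours -/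
def mixed {D : Type} (s : Equiv.Perm D) (c : D → Bool) : Set (Cyc s) :=
  {v | ∃ d d', toCyc s d = v ∧ toCyc s d' = v ∧ c d ≠ c d'}

end Pool.Agent.FBK
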