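import Pool.Agent.FBK.Defs

set_option autoImplicit false

/-! The local geometry of an immersion, counting changes, and a good direction. -/

namespace Pool.Agent.FBK

open Finset Filter Topology

/-! ### algebra in three-space -/

theorem four (X Y Z W L : Fin 3 → ℝ) :
    det3 X Y Z * dot3 L W = det3 W Y Z * dot3 L X + det3 X W Z * dot3 L Y
      + det3 X Y W * dot3 L Z := by
  simp only [det3, dot3]; ring

theorem det_rot (X Y Z : Fin 3 → ℝ) : det3 X Y Z = det3 Y Z X := by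
  simp only [det3]; ring

theorem det_swap (X Y Z : Fin 3 → ℝ) : det3 X Y Z = - det3 Y X Z := by
  simp only [det3]; ring

theorem det_swap' (X Y Z : Fin 3 → ℝ) : det3 X Y Z = - det3 X Z Y := by
  simp only [det3]; ring

theorem cop {n X Y Z : Fin 3 → ℝ} (hn : 0 < dot3 n n) (hX : dot3 n X = 0)
    (hY : dot3 n Y = 0) (hZ : dot3 n Z = 0) : det3 X Y Z = 0 := by
  have h := four X Y Z n n
  rw [hX, hY, hZ] at h
  have : det3 X Y Z * dot3 n n = 0 := by linarith
  rcases mul_eq_zero.1 this with h1 | h1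
  · exact h1
  · exact absurd h1 hn.ne'

theorem dot_self_pos {n : Fin 3 → ℝ} (h : n ≠ 0) : 0 < dot3 n n := by
  by_contra hc
  apply h
  have h0 : n 0 * n 0 + n 1 * n 1 + n 2 * n 2 ≤ 0 := not_lt.1 hc
  have e0 : n 0 = 0 := by nlinarith [mul_self_nonneg (n 0), mul_self_nonneg (n 1), mul_self_nonneg (n 2)]
  have e1 : n 1 = 0 := by nlinarith [mul_self_nonneg (n 0), mul_self_nonneg (n 1), mul_self_nonneg (n 2)]
  have e2 : n 2 = 0 := by nlinarith [mul_self_nonneg (n 0), mul_self_nonneg (n 1), mul_self_nonneg (n 2)]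
  funext i; fin_cases i <;> simp [e0, e1, e2]

theorem ne_zero_of_det {n X Y : Fin 3 → ℝ} (h : det3 n X Y ≠ 0) : n ≠ 0 := by
  rintro rfl; apply h; simp [det3]

theorem ne_zero_of_det2 {n X Y : Fin 3 → ℝ} (h : det3 n X Y ≠ 0) : X ≠ 0 := by
  rintro rfl; apply h; simp [det3]

theorem ne_zero_of_det3 {n X Y : Fin 3 → ℝ} (h : det3 n X Y ≠ 0) : Y ≠ 0 := by
  rintro rfl; apply h; simp [det3]

/-- the vector product -/
def crs (u v : Fin 3 → ℝ) : Fin 3 → ℝ :=
  ![u 1 * v 2 - u 2 * v 1, u 2 * v 0 - u 0 * v 2, u 0 * v 1 - u 1 * v 0]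

theorem dot_crs (w u v : Fin 3 → ℝ) : dot3 w (crs u v) = det3 w u v := by
  simp [dot3, crs, det3]; ring

theorem dot_comm (u v : Fin 3 → ℝ) : dot3 u v = dot3 v u := by simp only [dot3]; ring

theorem crs_ne_of_det {n X Y : Fin 3 → ℝ} (h : det3 n X Y ≠ 0) : crs X Y ≠ 0 := by
  intro h0; apply h; rw [← dot_crs, h0]; simp [dot3]

theorem gram (a b u x y w : Fin 3 → ℝ) (h1 : dot3 a x = 0) (h2 : dot3 a y = 0)
    (h3 : dot3 b x = 0) (h4 : dot3 b y = 0) : det3 a b u * det3 x y w = 0 := by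
  simp only [dot3] at h1 h2 h3 h4
  simp only [det3]
  linear_combination
    ((b 0 * y 0 + b 1 * y 1 + b 2 * y 2) * (u 0 * w 0 + u 1 * w 1 + u 2 * w 2)
      - (b 0 * w 0 + b 1 * w 1 + b 2 * w 2) * (u 0 * y 0 + u 1 * y 1 + u 2 * y 2)) * h1
    - ((b 0 * x 0 + b 1 * x 1 + b 2 * x 2) * (u 0 * w 0 + u 1 * w 1 + u 2 * w 2)
      - (b 0 * w 0 + b 1 * w 1 + b 2 * w 2) * (u 0 * x 0 + u 1 * x 1 + u 2 * x 2)) * h2
    + (a 0 * w 0 + a 1 * w 1 + a 2 * w 2) * ((u 0 * y 0 + u 1 * y 1 + u 2 * y 2) * h3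
      - (u 0 * x 0 + u 1 * x 1 + u 2 * x 2) * h4)

theorem par {a b x y : Fin 3 → ℝ} (ha : a ≠ 0) (h1 : dot3 a x = 0) (h2 : dot3 a y = 0)
    (h3 : dot3 b x = 0) (h4 : dot3 b y = 0) (hxy : det3 b x y ≠ 0) : ∃ t : ℝ, b = t • a := by
  have hw : det3 x y b ≠ 0 := by rw [det_rot] at hxy; exact hxy
  have key : ∀ u, det3 a b u = 0 := fun u => by
    rcases mul_eq_zero.1 (gram a b u x y b h1 h2 h3 h4) with h | h
    · exact h
    · exact absurd h hw
  have c0 := key ![1, 0, 0]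
  have c1 := key ![0, 1, 0]
  have c2 := key ![0, 0, 1]
  simp [det3] at c0 c1 c2
  have hp := dot_self_pos ha
  refine ⟨dot3 a b / dot3 a a, ?_⟩
  have hp' : a 0 * a 0 + a 1 * a 1 + a 2 * a 2 ≠ 0 := hp.ne'
  funext i
  simp only [Pi.smul_apply, smul_eq_mul, dot3]
  rw [div_mul_eq_mul_div, eq_div_iff hp']
  fin_cases i
  · simp; linear_combination (-(a 1)) * c2 + (a 2) * c1
  · simp; linear_combination (a 0) * c2 - (a 2) * c0
  · simp; linear_combination (-(a 0)) * c1 + (a 1) * c0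

theorem eventually_poly_ne {A B C : ℝ} (h : A ≠ 0 ∨ B ≠ 0 ∨ C ≠ 0) :
    ∀ᶠ t in 𝓝[>] (0 : ℝ), A + B * t + C * t ^ 2 ≠ 0 := by
  by_cases hA : A = 0
  · subst hA
    by_cases hB : B = 0
    · subst hB
      have hC : C ≠ 0 := by simpa using h
      filter_upwards [self_mem_nhdsWithin] with t ht
      have : (0 : ℝ) < t := ht
      simp; exact ⟨hC, this.ne'⟩
    · have hc : ContinuousAt (fun t : ℝ => B + C * t) 0 := by fun_prop
      have h1 : ∀ᶠ t in 𝓝 (0 : ℝ), B + C * t ≠ 0 := by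
        have := hc.eventually_ne (by simpa using hB : (fun t : ℝ => B + C * t) 0 ≠ 0)
        simpa using this
      filter_upwards [self_mem_nhdsWithin, nhdsWithin_le_nhds h1] with t ht h2
      have ht' : (0 : ℝ) < t := ht
      have : 0 + B * t + C * t ^ 2 = t * (B + C * t) := by ring
      rw [this]; exact mul_ne_zero ht'.ne' h2
  · have hc : ContinuousAt (fun t : ℝ => A + B * t + C * t ^ 2) 0 := by fun_prop
    have h1 := hc.eventually_ne (by simpa using hA : (fun t : ℝ => A + B * t + C * t ^ 2) 0 ≠ 0)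
    exact nhdsWithin_le_nhds h1

theorem ap_inv {D : Type} (p : Equiv.Perm D) (d : D) : p (p⁻¹ d) = d :=
  Equiv.apply_symm_apply p d

theorem inv_ap {D : Type} (p : Equiv.Perm D) (d : D) : p⁻¹ (p d) = d :=
  Equiv.symm_apply_apply p d

/-! ### the local geometry of a immersion -/

section geometry

variable {D : Type} {s a : Equiv.Perm D} (ha : ∀ d, a (a d) = d) (R : Immersion s a)

/-- the vector along a dart -/
def Immersion.e {D : Type} {s a : Equiv.Perm D} (R : Immersion s a) (d : D) : Fin 3 → ℝ :=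
  R.pos (a d) - R.pos d

include ha

theorem e_rev (d : D) : R.e (a d) = - R.e d := by
  simp only [Immersion.e, ha]; abel

theorem nrm_next (d : D) : R.nrm (s d) = R.nrm (a d) := by
  have := R.nrm_face (a d); rwa [ha] at this

omit ha in
theorem pos_head (d : D) : R.pos (s (a d)) = R.pos (a d) := R.pos_vertex (a d)

omit ha in
theorem pos_prev (d : D) : R.pos (s⁻¹ d) = R.pos d := by
  have := R.pos_vertex (s⁻¹ d); rw [ap_inv] at this; exact this.symm

/-- the dart before `d` on the face of `d` -/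
theorem prev_next (d : D) : s (a (a (s⁻¹ d))) = d := by
  rw [ha]; exact ap_inv s d

theorem same_prev (d : D) : (s * a).SameCycle (a (s⁻¹ d)) d :=
  ⟨1, by simp [Equiv.Perm.mul_apply, ha]⟩

omit ha in
theorem same_next (d : D) : (s * a).SameCycle d (s (a d)) :=
  ⟨1, by simp [Equiv.Perm.mul_apply]⟩

theorem dot_e (d : D) : dot3 (R.nrm d) (R.e d) = 0 := by
  have := R.planar d (s (a d)) (same_next d)
  rwa [pos_head] at this

theorem dot_e_prev (d : D) : dot3 (R.nrm d) (R.e (s⁻¹ d)) = 0 := by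
  have := R.planar d (a (s⁻¹ d)) (same_prev ha d).symm
  rw [Immersion.e, pos_prev]; exact this

theorem nrm_prev (d : D) : R.nrm (a (s⁻¹ d)) = R.nrm d := by
  have := R.nrm_face (a (s⁻¹ d)); rw [prev_next ha] at this; exact this.symm

theorem corner (d : D) : 0 < det3 (R.nrm d) (R.e d) (R.e (s⁻¹ d)) := by
  set p := a (s⁻¹ d) with hp
  have hsp : s (a p) = d := prev_next ha d
  have h1 : s (a d) ≠ p := by
    have := (R.three_corners p).2; rwa [hsp] at this
  have h2 : s (a d) ≠ s (a p) := by rw [hsp]; exact (R.three_corners d).1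
  have h := R.convex p (s (a d)) ((same_prev ha d).trans (same_next d)) h1 h2
  rw [nrm_prev ha, pos_head] at h
  have e1 : R.pos (a p) = R.pos d := by rw [hp, ha]; exact pos_prev R d
  rw [e1] at h
  have e2 : R.e (s⁻¹ d) = R.pos p - R.pos d := by rw [Immersion.e, pos_prev]
  rw [e2, Immersion.e]
  have : det3 (R.nrm d) (R.pos (a d) - R.pos d) (R.pos p - R.pos d)
      = det3 (R.nrm d) (R.pos d - R.pos p) (R.pos (a d) - R.pos p) := by
    simp only [det3, Pi.sub_apply]; ring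
  rw [this]; exact h

theorem corner' (d : D) : 0 < det3 (R.nrm (a d)) (R.e (s d)) (R.e d) := by
  have h := corner ha R (s d)
  rwa [inv_ap, nrm_next ha] at h

theorem dot_next (d : D) : dot3 (R.nrm (a d)) (R.e (s d)) = 0 := by
  have := dot_e ha R (s d); rwa [nrm_next ha] at this

theorem dot_self_next (d : D) : dot3 (R.nrm (a d)) (R.e d) = 0 := by
  have := dot_e_prev ha R (s d); rwa [inv_ap, nrm_next ha] at this

theorem nrm_pos (d : D) : 0 < dot3 (R.nrm d) (R.nrm d) :=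
  dot_self_pos (ne_zero_of_det (corner ha R d).ne')

/-- determinant of three consecutive edge vectors at the tail of `d` -/
noncomputable def kap {D : Type} {s a : Equiv.Perm D} (R : Immersion s a) (d : D) : ℝ :=
  det3 (R.e (s⁻¹ d)) (R.e d) (R.e (s d))

theorem kap_left (d : D) : kap R d * dot3 (R.nrm d) (R.nrm d)
    = -(det3 (R.nrm d) (R.e d) (R.e (s⁻¹ d)) * dot3 (R.nrm d) (R.e (s d))) := by
  have h := four (R.e d) (R.e (s⁻¹ d)) (R.e (s d)) (R.nrm d) (R.nrm d)
  rw [dot_e ha, dot_e_prev ha] at h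
  have h1 : kap R d = - det3 (R.e d) (R.e (s⁻¹ d)) (R.e (s d)) := det_swap _ _ _
  have h2 : det3 (R.e d) (R.e (s⁻¹ d)) (R.nrm d) = det3 (R.nrm d) (R.e d) (R.e (s⁻¹ d)) := by
    rw [← det_rot]
  rw [h2] at h; rw [h1]; linarith

theorem kap_right (d : D) : kap R d * dot3 (R.nrm (a d)) (R.nrm (a d))
    = -(det3 (R.nrm (a d)) (R.e (s d)) (R.e d) * dot3 (R.nrm (a d)) (R.e (s⁻¹ d))) := by
  have h := four (R.e (s d)) (R.e d) (R.e (s⁻¹ d)) (R.nrm (a d)) (R.nrm (a d))
  rw [dot_next ha, dot_self_next ha] at h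
  have h1 : kap R d = - det3 (R.e (s d)) (R.e d) (R.e (s⁻¹ d)) := by
    unfold kap; simp only [det3]; ring
  have h2 : det3 (R.e (s d)) (R.e d) (R.nrm (a d)) = det3 (R.nrm (a d)) (R.e (s d)) (R.e d) := by
    rw [← det_rot]
  rw [h2] at h; rw [h1]; linarith

theorem kap_pos_iff (d : D) : 0 < kap R d ↔ dot3 (R.nrm d) (R.e (s d)) < 0 := by
  have h := kap_left ha R d
  have hn := nrm_pos ha R d
  have hc := corner ha R d
  constructor
  · intro hk
    have : 0 < kap R d * dot3 (R.nrm d) (R.nrm d) := mul_pos hk hn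
    rw [h] at this
    by_contra hcon
    have : 0 ≤ det3 (R.nrm d) (R.e d) (R.e (s⁻¹ d)) * dot3 (R.nrm d) (R.e (s d)) :=
      mul_nonneg hc.le (not_lt.1 hcon)
    linarith
  · intro hk
    by_contra hcon
    have h1 : kap R d * dot3 (R.nrm d) (R.nrm d) ≤ 0 :=
      mul_nonpos_of_nonpos_of_nonneg (not_lt.1 hcon) hn.le
    have h2 : det3 (R.nrm d) (R.e d) (R.e (s⁻¹ d)) * dot3 (R.nrm d) (R.e (s d)) < 0 :=
      mul_neg_of_pos_of_neg hc hk
    linarith

theorem kap_pos_iff' (d : D) : 0 < kap R d ↔ dot3 (R.nrm (a d)) (R.e (s⁻¹ d)) < 0 := by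
  have h := kap_right ha R d
  have hn := nrm_pos ha R (a d)
  have hc := corner' ha R d
  constructor
  · intro hk
    have : 0 < kap R d * dot3 (R.nrm (a d)) (R.nrm (a d)) := mul_pos hk hn
    rw [h] at this
    by_contra hcon
    have : 0 ≤ det3 (R.nrm (a d)) (R.e (s d)) (R.e d) * dot3 (R.nrm (a d)) (R.e (s⁻¹ d)) :=
      mul_nonneg hc.le (not_lt.1 hcon)
    linarith
  · intro hk
    by_contra hcon
    have h1 : kap R d * dot3 (R.nrm (a d)) (R.nrm (a d)) ≤ 0 :=
      mul_nonpos_of_nonpos_of_nonneg (not_lt.1 hcon) hn.le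
    have h2 : det3 (R.nrm (a d)) (R.e (s d)) (R.e d) * dot3 (R.nrm (a d)) (R.e (s⁻¹ d)) < 0 :=
      mul_neg_of_pos_of_neg hc hk
    linarith

theorem kap_rev (d : D) : 0 < kap R (a d) ↔ 0 < kap R d := by
  rw [kap_pos_iff ha R d, kap_pos_iff' ha R (a d), ha]
  -- the face of `a d` lies on one side of the plane of the face of `d`
  have hn := nrm_pos ha R (a d)
  have hB := dot_next ha R d
  have hE := dot_self_next ha R d
  have hC : dot3 (R.nrm (a d)) (R.e (s⁻¹ (a d))) = 0 := dot_e_prev ha R (a d)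
  have h1 := corner' ha R d
  have h2 : 0 < det3 (R.nrm (a d)) (R.e (s⁻¹ (a d))) (R.e d) := by
    have h := corner ha R (a d)
    rw [e_rev ha] at h
    have : det3 (R.nrm (a d)) (R.e (s⁻¹ (a d))) (R.e d)
        = det3 (R.nrm (a d)) (-R.e d) (R.e (s⁻¹ (a d))) := by
      simp only [det3, Pi.neg_apply]; ring
    rw [this]; exact h
  have hE' := dot_e ha R d
  have h := four (R.nrm (a d)) (R.e (s⁻¹ (a d))) (R.e d) (R.e (s d)) (R.nrm d)
  rw [hE', cop hn hB hC hE] at h
  have key : det3 (R.nrm (a d)) (R.e (s⁻¹ (a d))) (R.e d) * dot3 (R.nrm d) (R.e (s d))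
      = det3 (R.nrm (a d)) (R.e (s d)) (R.e d) * dot3 (R.nrm d) (R.e (s⁻¹ (a d))) := by
    linarith
  constructor
  · intro hk
    by_contra hcon
    have h3 := mul_nonneg h2.le (not_lt.1 hcon)
    have h4 := mul_neg_of_pos_of_neg h1 hk
    linarith
  · intro hk
    by_contra hcon
    have h3 := mul_nonneg h1.le (not_lt.1 hcon)
    have h4 := mul_neg_of_pos_of_neg h2 hk
    linarith

theorem kap_ne (d : D) : kap R d ≠ 0 := by
  intro h0
  have h := kap_left ha R d
  rw [h0, zero_mul] at h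
  have hc := corner ha R d
  have hB : dot3 (R.nrm d) (R.e (s d)) = 0 := by
    rcases mul_eq_zero.1 (by linarith :
      det3 (R.nrm d) (R.e d) (R.e (s⁻¹ d)) * dot3 (R.nrm d) (R.e (s d)) = 0) with h1 | h1
    · exact absurd h1 hc.ne'
    · exact h1
  obtain ⟨t, ht⟩ := par (ne_zero_of_det hc.ne') hB (dot_e ha R d) (dot_next ha R d)
    (dot_self_next ha R d) (corner' ha R d).ne'
  exact R.not_coplanar d t ht

theorem kap_three {d : D} (h : s (s (s d)) = d) : kap R (s d) = kap R d := by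
  have h1 : s⁻¹ d = s (s d) := by
    rw [Equiv.Perm.inv_eq_iff_eq]; exact h.symm
  unfold kap
  rw [inv_ap, h1]
  simp only [det3]; ring

end geometry

/-! ### tops of faces -/

section tops

variable {D : Type} {s a : Equiv.Perm D} (ha : ∀ d, a (a d) = d) (R : Immersion s a)
  (ψ : Fin 3 → ℝ) (hψ : ∀ d, dot3 ψ (R.e d) ≠ 0)

theorem dot_sub (u v w : Fin 3 → ℝ) : dot3 u (v - w) = dot3 u v - dot3 u w := by
  simp only [dot3, Pi.sub_apply]; ring

include ha hψ

/-- a top corner of a face is strictly higher than every other corner of the face -/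
theorem top_unique (m : D) (h1 : dot3 ψ (R.e (a (s⁻¹ m))) > 0) (h2 : dot3 ψ (R.e m) < 0)
    (m' : D) (hm : (s * a).SameCycle m m') (hne : m' ≠ m) :
    dot3 ψ (R.pos m') < dot3 ψ (R.pos m) := by
  set p := a (s⁻¹ m) with hp
  have hsp : s (a p) = m := prev_next ha m
  have ep : R.e p = R.pos m - R.pos p := by
    rw [Immersion.e, hp, ha, pos_prev]
  rw [ep, dot_sub] at h1
  have em : R.e m = R.pos (a m) - R.pos m := rfl
  rw [em, dot_sub] at h2
  by_cases hq : m' = s (a m)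
  · rw [hq, pos_head]; linarith
  by_cases hpm : m' = p
  · rw [hpm]; linarith
  have hn := nrm_pos ha R m
  have hQ : dot3 (R.nrm m) (R.pos (a m) - R.pos m) = 0 := dot_e ha R m
  have hP : dot3 (R.nrm m) (R.pos p - R.pos m) = 0 := R.planar m p (same_prev ha m).symm
  have hW : dot3 (R.nrm m) (R.pos m' - R.pos m) = 0 := R.planar m m' hm
  have c0 : 0 < det3 (R.nrm m) (R.pos (a m) - R.pos m) (R.pos p - R.pos m) := by
    have h := corner ha R m
    have : R.e (s⁻¹ m) = R.pos p - R.pos m := by rw [Immersion.e, pos_prev]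
    rwa [this] at h
  have c1 := R.convex m m' hm hne hq
  have c2 : 0 < det3 (R.nrm m) (R.pos m' - R.pos m) (R.pos p - R.pos m) := by
    have h := R.convex p m' ((same_prev ha m).trans hm) hpm (by rw [hsp]; exact hne)
    rw [nrm_prev ha] at h
    have e1 : R.pos (a p) = R.pos m := by rw [hp, ha]; exact pos_prev R m
    rw [e1] at h
    have : det3 (R.nrm m) (R.pos m' - R.pos m) (R.pos p - R.pos m)
        = det3 (R.nrm m) (R.pos m - R.pos p) (R.pos m' - R.pos p) := by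
      simp only [det3, Pi.sub_apply]; ring
    rw [this]; exact h
  have h := four (R.nrm m) (R.pos (a m) - R.pos m) (R.pos p - R.pos m) (R.pos m' - R.pos m) ψ
  rw [cop hn hW hQ hP, dot_sub, dot_sub, dot_sub] at h
  by_contra hcon
  have h3 := mul_nonneg c0.le (sub_nonneg.2 (not_lt.1 hcon))
  have h4 := mul_pos c2 (sub_pos.2 (sub_neg.1 h2))
  have h5 := mul_pos c1 h1
  nlinarith

end tops

/-! ### counting changes along cycles -/

section counting

open Classical in
theorem alt {D : Type} (p : Equiv.Perm D) (S : Finset D) (hS : ∀ d, p d ∈ S ↔ d ∈ S)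
    (U : D → Bool) : (S.filter (fun d => U d ≠ U (p d))).card
      = 2 * (S.filter (fun d => U d = true ∧ U (p d) = false)).card := by
  have h1 : (S.filter (fun d => U (p d) = true)).card = (S.filter (fun d => U d = true)).card := by
    apply Finset.card_bij (fun d _ => p d)
    · intro d hd
      rw [mem_filter] at hd ⊢
      exact ⟨(hS d).2 hd.1, hd.2⟩
    · intro d _ d' _ h; exact p.injective h
    · intro d hd
      rw [mem_filter] at hd
      refine ⟨p⁻¹ d, ?_, ap_inv p d⟩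
      rw [mem_filter, ap_inv]
      refine ⟨?_, hd.2⟩
      rw [← hS, ap_inv]; exact hd.1
  have h2 : (S.filter (fun d => U d = true)).card
      = (S.filter (fun d => U d = true ∧ U (p d) = true)).card
        + (S.filter (fun d => U d = true ∧ U (p d) = false)).card := by
    rw [← Finset.card_union_of_disjoint]
    · congr 1; ext d; simp only [mem_filter, mem_union]; cases h : U (p d) <;> simp
    · rw [Finset.disjoint_left]; intro d; simp only [mem_filter]; intro h h'; simp_all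
  have h3 : (S.filter (fun d => U (p d) = true)).card
      = (S.filter (fun d => U d = true ∧ U (p d) = true)).card
        + (S.filter (fun d => U d = false ∧ U (p d) = true)).card := by
    rw [← Finset.card_union_of_disjoint]
    · congr 1; ext d; simp only [mem_filter, mem_union]; cases h : U d <;> simp
    · rw [Finset.disjoint_left]; intro d; simp only [mem_filter]; intro h h'; simp_all
  have h4 : (S.filter (fun d => U d ≠ U (p d))).card
      = (S.filter (fun d => U d = true ∧ U (p d) = false)).card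
        + (S.filter (fun d => U d = false ∧ U (p d) = true)).card := by
    rw [← Finset.card_union_of_disjoint]
    · congr 1; ext d; simp only [mem_filter, mem_union]
      cases h : U d <;> cases h' : U (p d) <;> simp
    · rw [Finset.disjoint_left]; intro d; simp only [mem_filter]; intro h h'; simp_all
  omega

theorem toCyc_eq {D : Type} (p : Equiv.Perm D) (d d' : D) :
    toCyc p d = toCyc p d' ↔ p.SameCycle d d' := by
  unfold toCyc; rw [Quotient.eq]; exact Iff.rfl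

theorem toCyc_apply {D : Type} (p : Equiv.Perm D) (d : D) : toCyc p (p d) = toCyc p d := by
  rw [toCyc_eq]; exact ⟨-1, by simp⟩

/-- a choice of exactly one element in each cycle counts the cycles -/
theorem card_one {D : Type} [Fintype D] (p : Equiv.Perm D) (S : Finset D)
    (h1 : ∀ d ∈ S, ∀ d' ∈ S, p.SameCycle d d' → d = d')
    (h2 : ∀ d, ∃ d' ∈ S, p.SameCycle d d') : S.card = Nat.card (Cyc p) := by
  classical
  rw [Nat.card_eq_fintype_card, ← Finset.card_univ]
  apply Finset.card_bij (fun d _ => toCyc p d)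
  · intro d _; exact mem_univ _
  · intro d hd d' hd' h; exact h1 d hd d' hd' ((toCyc_eq p d d').1 h)
  · intro v _
    obtain ⟨d, rfl⟩ := Quotient.exists_rep v
    obtain ⟨d', hd', hs⟩ := h2 d
    exact ⟨d', hd', (toCyc_eq p d' d).2 hs.symm⟩

theorem same_invol {D : Type} {a : Equiv.Perm D} (ha : ∀ d, a (a d) = d) {d d' : D}
    (h : a.SameCycle d d') : d' = d ∨ d' = a d := by
  obtain ⟨i, hi⟩ := h
  have h2 : a ^ (2 : ℤ) = 1 := by
    ext d; simp [zpow_ofNat, pow_two, Equiv.Perm.mul_apply, ha]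
  rcases Int.even_or_odd' i with ⟨k, rfl | rfl⟩
  · left; rw [zpow_mul, h2, one_zpow] at hi; exact hi.symm
  · right; rw [zpow_add, zpow_mul, h2, one_zpow, one_mul, zpow_one] at hi; exact hi.symm

end counting

/-! ### a good direction -/

section direction

theorem smul_of_crs {u v : Fin 3 → ℝ} (hu : u ≠ 0) (h : crs u v = 0) : ∃ t : ℝ, v = t • u := by
  have c0 : u 1 * v 2 - u 2 * v 1 = 0 := by have := congrFun h 0; simpa [crs] using this
  have c1 : u 2 * v 0 - u 0 * v 2 = 0 := by have := congrFun h 1; simpa [crs] using this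
  have c2 : u 0 * v 1 - u 1 * v 0 = 0 := by have := congrFun h 2; simpa [crs] using this
  have hp := dot_self_pos hu
  have hp' : u 0 * u 0 + u 1 * u 1 + u 2 * u 2 ≠ 0 := hp.ne'
  refine ⟨dot3 u v / dot3 u u, ?_⟩
  funext i
  simp only [Pi.smul_apply, smul_eq_mul, dot3]
  rw [div_mul_eq_mul_div, eq_div_iff hp']
  fin_cases i
  · simp; linear_combination (-(u 1)) * c2 + (u 2) * c1
  · simp; linear_combination (u 0) * c2 - (u 2) * c0
  · simp; linear_combination (-(u 0)) * c1 + (u 1) * c0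

theorem evt {σ M g1 p1 g2 : ℝ} (hσ : σ ≠ 0) (hM : 0 < M) :
    ∀ᶠ t in 𝓝[>] (0 : ℝ), 0 < (σ * M * t + g1 * t ^ 2) * (σ + p1 * t + g2 * t ^ 2) := by
  have hc : ContinuousAt (fun t : ℝ => (σ * M + g1 * t) * (σ + p1 * t + g2 * t ^ 2)) 0 := by
    fun_prop
  have h0 : (fun t : ℝ => (σ * M + g1 * t) * (σ + p1 * t + g2 * t ^ 2)) 0 = σ ^ 2 * M := by
    simp; ring
  have hpos : (0 : ℝ) < (fun t : ℝ => (σ * M + g1 * t) * (σ + p1 * t + g2 * t ^ 2)) 0 := by
    rw [h0]; positivity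
  have h1 : ∀ᶠ t in 𝓝 (0 : ℝ), 0 < (σ * M + g1 * t) * (σ + p1 * t + g2 * t ^ 2) :=
    hc.eventually (lt_mem_nhds hpos)
  filter_upwards [self_mem_nhdsWithin, nhdsWithin_le_nhds h1] with t ht h2
  have ht' : (0 : ℝ) < t := ht
  have : (σ * M * t + g1 * t ^ 2) * (σ + p1 * t + g2 * t ^ 2)
      = t * ((σ * M + g1 * t) * (σ + p1 * t + g2 * t ^ 2)) := by ring
  rw [this]; exact mul_pos ht' h2

theorem pos_iff_of_mul_pos {x y : ℝ} (h : 0 < x * y) : 0 < x ↔ 0 < y := by
  constructor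
  · intro hx; exact (pos_iff_pos_of_mul_pos h).1 hx
  · intro hy; exact (pos_iff_pos_of_mul_pos h).2 hy

variable {D : Type} {s a : Equiv.Perm D} (ha : ∀ d, a (a d) = d) (R : Immersion s a)

include ha

theorem e_ne (d : D) : R.e d ≠ 0 := ne_zero_of_det2 (corner ha R d).ne'

/-- a neighbour at the vertex that is not orthogonal to a given normal of an edge -/
theorem neighbour (d : D) (N : Fin 3 → ℝ) (hN : N ≠ 0) (h0 : dot3 N (R.e d) = 0) :
    ∃ w, (w = s d ∨ w = s⁻¹ d) ∧ dot3 N (R.e w) ≠ 0 := by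
  by_cases h1 : dot3 N (R.e (s d)) = 0
  · by_cases h2 : dot3 N (R.e (s⁻¹ d)) = 0
    · exact absurd (cop (dot_self_pos hN) h2 h0 h1) (kap_ne ha R d)
    · exact ⟨s⁻¹ d, Or.inr rfl, h2⟩
  · exact ⟨s d, Or.inl rfl, h1⟩

omit ha in
theorem step_of_neighbour {ψ : Fin 3 → ℝ} {d w : D} (hw : w = s d ∨ w = s⁻¹ d)
    (h : 0 < dot3 ψ (R.e d) ↔ 0 < dot3 ψ (R.e w)) :
    ∃ u, toCyc s u = toCyc s d ∧ (0 < dot3 ψ (R.e u) ↔ 0 < dot3 ψ (R.e (s u))) := by
  rcases hw with rfl | rfl
  · exact ⟨d, rfl, h⟩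
  · refine ⟨s⁻¹ d, ?_, ?_⟩
    · have := toCyc_apply s (s⁻¹ d); rw [ap_inv] at this; exact this.symm
    · rw [ap_inv]; exact h.symm

theorem independent (d1 d2 : D) : ∃ u, toCyc s u = toCyc s d2 ∧ crs (R.e d1) (R.e u) ≠ 0 := by
  by_contra hcon
  push Not at hcon
  obtain ⟨t1, h1⟩ := smul_of_crs (e_ne ha R d1) (hcon d2 rfl)
  obtain ⟨t2, h2⟩ := smul_of_crs (e_ne ha R d1) (hcon (s d2) (toCyc_apply s d2))
  have h := corner' ha R d2
  rw [h1, h2] at h
  have : det3 (R.nrm (a d2)) (t2 • R.e d1) (t1 • R.e d1) = 0 := by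
    simp only [det3, Pi.smul_apply, smul_eq_mul]; ring
  rw [this] at h; exact lt_irrefl _ h

/-- a generic direction that gives two edges the sign of a neighbour at the vertex -/
theorem dir_core [Finite D] (d1 d2 : D) (hN : crs (R.e d1) (R.e d2) ≠ 0) :
    ∃ ψ : Fin 3 → ℝ, (∀ d, dot3 ψ (R.e d) ≠ 0) ∧
    (∃ w, (w = s d1 ∨ w = s⁻¹ d1) ∧ dot3 (crs (R.e d1) (R.e d2)) (R.e w) ≠ 0 ∧
      (0 < dot3 ψ (R.e d1) ↔ 0 < dot3 ψ (R.e w))) ∧
    (∃ w, (w = s d2 ∨ w = s⁻¹ d2) ∧ dot3 (crs (R.e d1) (R.e d2)) (R.e w) ≠ 0 ∧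
      (0 < dot3 ψ (R.e d2) ↔ 0 < dot3 ψ (R.e w))) := by
  set e1 := R.e d1 with he1
  set e2 := R.e d2 with he2
  set N := crs e1 e2 with hNdef
  have hN1 : dot3 N e1 = 0 := by rw [dot_comm, hNdef, dot_crs]; simp only [det3]; ring
  have hN2 : dot3 N e2 = 0 := by rw [dot_comm, hNdef, dot_crs]; simp only [det3]; ring
  obtain ⟨w1, hw1', hw1⟩ := neighbour ha R d1 N hN hN1
  obtain ⟨w2, hw2', hw2⟩ := neighbour ha R d2 N hN hN2
  -- a vector not orthogonal to any edge
  have hγ : ∃ γ : Fin 3 → ℝ, ∀ d, dot3 γ (R.e d) ≠ 0 := by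
    have h : ∀ᶠ t in 𝓝[>] (0 : ℝ), ∀ d, R.e d 0 + R.e d 1 * t + R.e d 2 * t ^ 2 ≠ 0 := by
      rw [eventually_all]
      intro d
      apply eventually_poly_ne
      by_contra hcon
      push Not at hcon
      apply e_ne ha R d
      funext i; fin_cases i
      · exact hcon.1
      · exact hcon.2.1
      · exact hcon.2.2
    obtain ⟨t, ht⟩ := h.exists
    refine ⟨![1, t, t ^ 2], fun d => ?_⟩
    have := ht d
    have e : dot3 ![1, t, t ^ 2] (R.e d) = R.e d 0 + R.e d 1 * t + R.e d 2 * t ^ 2 := by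
      simp [dot3]; ring
    rw [e]; exact this
  obtain ⟨γ, hγ⟩ := hγ
  set σ1 := dot3 N (R.e w1) with hσ1
  set σ2 := dot3 N (R.e w2) with hσ2
  have hM := dot_self_pos hN
  set p : Fin 3 → ℝ := σ1 • crs e2 N + σ2 • crs N e1 with hp
  have hp1 : dot3 p e1 = σ1 * dot3 N N := by
    rw [hp, hNdef]
    simp [dot3, crs]
    ring
  have hp2 : dot3 p e2 = σ2 * dot3 N N := by
    rw [hp, hNdef]
    simp [dot3, crs]
    ring
  have expand : ∀ (t : ℝ) (v : Fin 3 → ℝ), dot3 (N + t • p + t ^ 2 • γ) v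
      = dot3 N v + dot3 p v * t + dot3 γ v * t ^ 2 := by
    intro t v; simp only [dot3, Pi.add_apply, Pi.smul_apply, smul_eq_mul]; ring
  have E0 : ∀ᶠ t in 𝓝[>] (0 : ℝ), ∀ d, dot3 (N + t • p + t ^ 2 • γ) (R.e d) ≠ 0 := by
    rw [eventually_all]
    intro d
    filter_upwards [eventually_poly_ne (A := dot3 N (R.e d)) (B := dot3 p (R.e d))
      (C := dot3 γ (R.e d)) (Or.inr (Or.inr (hγ d)))] with t ht
    rw [expand]; exact ht
  have E1 := evt (g1 := dot3 γ e1) (p1 := dot3 p (R.e w1)) (g2 := dot3 γ (R.e w1)) hw1 hM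
  have E2 := evt (g1 := dot3 γ e2) (p1 := dot3 p (R.e w2)) (g2 := dot3 γ (R.e w2)) hw2 hM
  obtain ⟨t, h0, h1, h2⟩ := (E0.and (E1.and E2)).exists
  refine ⟨N + t • p + t ^ 2 • γ, h0, ⟨w1, hw1', hw1, ?_⟩, ⟨w2, hw2', hw2, ?_⟩⟩
  · apply pos_iff_of_mul_pos
    rw [expand, expand, hN1, hp1, zero_add]
    exact h1
  · apply pos_iff_of_mul_pos
    rw [expand, expand, hN2, hp2, zero_add]
    exact h2

theorem exists_dir [Finite D] (d1 d2 : D) : ∃ ψ : Fin 3 → ℝ, (∀ d, dot3 ψ (R.e d) ≠ 0) ∧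
    (∃ u, toCyc s u = toCyc s d1 ∧ (0 < dot3 ψ (R.e u) ↔ 0 < dot3 ψ (R.e (s u)))) ∧
    (∃ u, toCyc s u = toCyc s d2 ∧ (0 < dot3 ψ (R.e u) ↔ 0 < dot3 ψ (R.e (s u)))) := by
  obtain ⟨u2, hu2, hN⟩ := independent ha R d1 d2
  obtain ⟨ψ, hψ, ⟨w1, h1, _, h1'⟩, ⟨w2, h2, _, h2'⟩⟩ := dir_core ha R d1 u2 hN
  obtain ⟨x, hx, hx'⟩ := step_of_neighbour R h2 h2'
  exact ⟨ψ, hψ, step_of_neighbour R h1 h1', x, hx.trans hu2, hx'⟩

/-- a generic direction with two pairs of neighbouring edges of equal sign at one vertex -/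
theorem exists_dir_two [Finite D] (d : D) : ∃ ψ : Fin 3 → ℝ, (∀ d, dot3 ψ (R.e d) ≠ 0) ∧
    (0 < dot3 ψ (R.e (s⁻¹ d)) ↔ 0 < dot3 ψ (R.e d)) ∧
    (0 < dot3 ψ (R.e (s d)) ↔ 0 < dot3 ψ (R.e (s (s d)))) := by
  have hN : crs (R.e d) (R.e (s d)) ≠ 0 := by
    intro h0
    have h := corner' ha R d
    have e : det3 (R.nrm (a d)) (R.e (s d)) (R.e d)
        = - dot3 (R.nrm (a d)) (crs (R.e d) (R.e (s d))) := by
      rw [dot_crs]; simp only [det3]; ring
    rw [e, h0] at h
    simp [dot3] at h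
  obtain ⟨ψ, hψ, ⟨w1, h1, g1, h1'⟩, ⟨w2, h2, g2, h2'⟩⟩ := dir_core ha R d (s d) hN
  refine ⟨ψ, hψ, ?_, ?_⟩
  · rcases h1 with rfl | rfl
    · exact absurd (by rw [dot_comm, dot_crs]; simp only [det3]; ring) g1
    · exact h1'.symm
  · rcases h2 with rfl | rfl
    · exact h2'
    · rw [inv_ap] at g2
      exact absurd (by rw [dot_comm, dot_crs]; simp only [det3]; ring) g2

end direction

end Pool.Agent.FBK
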