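import Pool.Agent.FBK.Vtx

set_option autoImplicit false

/-! The global count. -/

namespace Pool.Agent.FBK

open Finset Filter Topology

/-! ### the global count -/

section global

variable {D : Type} [Fintype D] {s a : Equiv.Perm D} (ha : ∀ d, a (a d) = d)
  (R : Immersion s a) {ψ : Fin 3 → ℝ} (hψ : ∀ d, dot3 ψ (R.e d) ≠ 0)

include ha

omit [Fintype D] in
theorem upw_rev (hψ : ∀ d, dot3 ψ (R.e d) ≠ 0) (d : D) :
    upw R ψ (a d) = !(upw R ψ d) := by
  have h : dot3 ψ (R.e (a d)) = - dot3 ψ (R.e d) := by
    rw [e_rev ha]; simp only [dot3, Pi.neg_apply]; ring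
  cases hu : upw R ψ d with
  | true =>
    rw [upw_true] at hu
    simp only [Bool.not_true]
    rw [upw_false R hψ, h]; linarith
  | false =>
    rw [upw_false R hψ] at hu
    simp only [Bool.not_false]
    rw [upw_true, h]; linarith

open Classical in
theorem count_face (hψ : ∀ d, dot3 ψ (R.e d) ≠ 0) :
    ((univ : Finset D).filter (fun d => upw R ψ d = true ∧ upw R ψ ((s * a) d) = false)).card
      = Nat.card (Cyc (s * a)) := by
  have hinv : ∀ d, a (s⁻¹ (s (a d))) = d := fun d => by rw [inv_ap, ha]
  apply card_one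
  · intro d hd d' hd' hs
    simp only [mem_filter, mem_univ, true_and, Equiv.Perm.mul_apply] at hd hd'
    rw [upw_true, upw_false R hψ] at hd hd'
    by_contra hne
    have hmm : s (a d') ≠ s (a d) := fun h => hne (a.injective (s.injective h)).symm
    have hs' : (s * a).SameCycle (s (a d)) (s (a d')) :=
      (same_next d).symm.trans (hs.trans (same_next d'))
    have h1 := top_unique ha R ψ hψ (s (a d)) (by rw [hinv]; exact hd.1) hd.2 (s (a d')) hs' hmm
    have h2 := top_unique ha R ψ hψ (s (a d')) (by rw [hinv]; exact hd'.1) hd'.2 (s (a d))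
      hs'.symm hmm.symm
    exact lt_asymm h1 h2
  · intro d
    obtain ⟨m, hm, hmax⟩ := Finset.exists_max_image
      ((univ : Finset D).filter (fun m => (s * a).SameCycle d m))
      (fun m => dot3 ψ (R.pos m))
      ⟨d, mem_filter.2 ⟨mem_univ _, Equiv.Perm.SameCycle.refl _ _⟩⟩
    simp only [mem_filter, mem_univ, true_and] at hm hmax
    have hd' : (s * a).SameCycle (a (s⁻¹ m)) m := same_prev ha m
    refine ⟨a (s⁻¹ m), ?_, hm.trans hd'.symm⟩
    simp only [mem_filter, mem_univ, true_and, Equiv.Perm.mul_apply]
    rw [prev_next ha, upw_true, upw_false R hψ]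
    constructor
    · have h1 := hmax _ (hm.trans hd'.symm)
      have h2 := hψ (a (s⁻¹ m))
      have e : R.e (a (s⁻¹ m)) = R.pos m - R.pos (a (s⁻¹ m)) := by
        rw [Immersion.e, ha, pos_prev]
      rw [e, dot_sub] at h2 ⊢
      have : dot3 ψ (R.pos (a (s⁻¹ m))) ≤ dot3 ψ (R.pos m) := h1
      exact lt_of_le_of_ne (by linarith) h2.symm
    · have h1 := hmax _ (hm.trans (same_next m))
      rw [pos_head] at h1
      have h2 := hψ m
      rw [Immersion.e, dot_sub] at h2 ⊢
      exact lt_of_le_of_ne (by linarith) h2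

open Classical in
theorem count_edge (hψ : ∀ d, dot3 ψ (R.e d) ≠ 0) :
    Fintype.card D = 2 * Nat.card (Cyc a) := by
  have h1 : ((univ : Finset D).filter (fun d => upw R ψ d = true)).card = Nat.card (Cyc a) := by
    apply card_one
    · intro d hd d' hd' hs
      simp only [mem_filter, mem_univ, true_and] at hd hd'
      rcases same_invol ha hs with h | h
      · exact h.symm
      · rw [h, upw_rev ha R hψ, hd] at hd'; simp at hd'
    · intro d
      cases hu : upw R ψ d with
      | true => exact ⟨d, by simpa using hu, Equiv.Perm.SameCycle.refl _ _⟩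
      | false =>
        refine ⟨a d, ?_, ⟨1, by simp⟩⟩
        simp only [mem_filter, mem_univ, true_and]
        rw [upw_rev ha R hψ, hu]; rfl
  have h2 : ((univ : Finset D).filter (fun d => upw R ψ d = false)).card
      = ((univ : Finset D).filter (fun d => upw R ψ d = true)).card := by
    apply Finset.card_bij (fun d _ => a d)
    · intro d hd
      simp only [mem_filter, mem_univ, true_and] at hd ⊢
      rw [upw_rev ha R hψ, hd]; rfl
    · intro d _ d' _ h; exact a.injective h
    · intro d hd
      simp only [mem_filter, mem_univ, true_and] at hd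
      refine ⟨a d, ?_, ha d⟩
      simp only [mem_filter, mem_univ, true_and]
      rw [upw_rev ha R hψ, hd]; rfl
  have h3 : Fintype.card D = ((univ : Finset D).filter (fun d => upw R ψ d = true)).card
      + ((univ : Finset D).filter (fun d => upw R ψ d = false)).card := by
    rw [← Finset.card_univ, ← Finset.card_union_of_disjoint]
    · congr 1; ext d; simp only [mem_filter, mem_union, mem_univ, true_and]
      cases upw R ψ d <;> simp
    · rw [Finset.disjoint_left]; intro d; simp only [mem_filter]; intro h h'; simp_all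
  omega

open Classical in
theorem count_vertex (hψ : ∀ d, dot3 ψ (R.e d) ≠ 0) :
    ((univ : Finset D).filter (fun d => upw R ψ d ≠ upw R ψ (s d))).card
      + 2 * Nat.card (Cyc (s * a)) = Fintype.card D := by
  have h1 := alt (s * a) (univ : Finset D) (fun d => by simp) (upw R ψ)
  rw [count_face ha R hψ] at h1
  rw [← h1]
  have h2 : ((univ : Finset D).filter (fun d => upw R ψ d ≠ upw R ψ (s d))).card
      = ((univ : Finset D).filter (fun d => upw R ψ d = upw R ψ ((s * a) d))).card := by
    apply Finset.card_bij (fun d _ => a d)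
    · intro d hd
      simp only [mem_filter, mem_univ, true_and, Equiv.Perm.mul_apply] at hd ⊢
      rw [ha, upw_rev ha R hψ]
      cases h : upw R ψ d <;> cases h' : upw R ψ (s d) <;> simp_all
    · intro d _ d' _ h; exact a.injective h
    · intro d hd
      simp only [mem_filter, mem_univ, true_and, Equiv.Perm.mul_apply] at hd
      refine ⟨a d, ?_, ha d⟩
      simp only [mem_filter, mem_univ, true_and]
      rw [upw_rev ha R hψ]
      cases h : upw R ψ d <;> cases h' : upw R ψ (s (a d)) <;> simp_all
  rw [h2, ← Finset.card_univ, ← Finset.card_union_of_disjoint]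
  · congr 1; ext d; simp only [mem_filter, mem_union, mem_univ, true_and, iff_true]
    exact Classical.em _
  · rw [Finset.disjoint_left]; intro d; simp only [mem_filter]
    rintro ⟨_, h⟩ ⟨_, h'⟩; exact h' h

omit ha [Fintype D] in
theorem pos_const [Finite D] {d d' : D} (h : toCyc s d = toCyc s d') : R.pos d = R.pos d' := by
  obtain ⟨n, hn⟩ := ((toCyc_eq s d d').1 h).exists_nat_pow_eq
  have key : ∀ n : ℕ, R.pos ((s ^ n) d) = R.pos d := by
    intro n
    induction n with
    | zero => simp
    | succ n ih => rw [pow_succ', Equiv.Perm.mul_apply, R.pos_vertex, ih]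
  rw [← hn, key]

open Classical in
theorem sum_chg (ψ : Fin 3 → ℝ) [Fintype (Cyc s)] :
    ∑ v : Cyc s, chg ψ R v
      = ((univ : Finset D).filter (fun d => upw R ψ d ≠ upw R ψ (s d))).card := by
  rw [Finset.card_eq_sum_card_fiberwise (f := fun d => toCyc s d) (t := univ)
    (fun d _ => mem_univ _)]
  apply Finset.sum_congr rfl
  intro v _
  unfold chg fib
  congr 1
  ext d
  simp only [mem_filter, mem_univ, true_and]
  exact and_comm

theorem two_reps {V : Type} [DecidableEq V] {W : Type} (f : W → V) (hf : Function.Surjective f)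
    [Nonempty W] (A : Finset V) (hA : A.card ≤ 2) : ∃ d1 d2, ∀ v ∈ A, v = f d1 ∨ v = f d2 := by
  obtain ⟨w⟩ := (inferInstance : Nonempty W)
  have : A.card = 0 ∨ A.card = 1 ∨ A.card = 2 := by omega
  rcases this with h | h | h
  · rw [Finset.card_eq_zero] at h; subst h
    exact ⟨w, w, fun v hv => absurd hv (Finset.notMem_empty v)⟩
  · obtain ⟨x, rfl⟩ := Finset.card_eq_one.1 h
    obtain ⟨d, rfl⟩ := hf x
    exact ⟨d, d, fun v hv => Or.inl (Finset.mem_singleton.1 hv)⟩
  · obtain ⟨x, y, _, rfl⟩ := Finset.card_eq_two.1 h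
    obtain ⟨d, rfl⟩ := hf x
    obtain ⟨d', rfl⟩ := hf y
    refine ⟨d, d', fun v hv => ?_⟩
    rw [Finset.mem_insert, Finset.mem_singleton] at hv
    exact hv

open Classical in
/-- the valence of a mixed vertex is at least four -/
theorem four_le (v : Cyc s) (hv : v ∈ mixed s (col R)) : 4 ≤ len s v := by
  obtain ⟨d, d', h1, h2, h3⟩ := hv
  have h4 := len_ge ha R v
  by_contra hcon
  have h5 : len s v = 3 := by omega
  apply h3
  apply const_on (p := s) (v := v) _ h1 h2
  intro x hx
  apply col_three ha R
  rw [hx]; exact h5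

theorem sum_bound [Nonempty D] {ψ : Fin 3 → ℝ} (hψ : ∀ d, dot3 ψ (R.e d) ≠ 0)
    (A : Finset (Cyc s)) (hAinB : ∀ v ∈ A, v ∈ mixed s (col R))
    (hAchg : ∀ v ∈ A, chg ψ R v + 2 ≤ 2 * (len s v / 2)) :
    2 - euler s a + (A.card : ℤ) ≤ ∑ᶠ v ∈ mixed s (col R), (((len s v / 2 : ℕ) : ℤ) - 1) := by
  classical
  set B : Finset (Cyc s) := univ.filter (fun v => v ∈ mixed s (col R)) with hB
  have hBmem : ∀ v, v ∈ B ↔ v ∈ mixed s (col R) := fun v => by simp [hB]
  have e1 : ∑ᶠ v ∈ mixed s (col R), (((len s v / 2 : ℕ) : ℤ) - 1)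
      = ∑ v ∈ B, (((len s v / 2 : ℕ) : ℤ) - 1) := by
    have : mixed s (col R) = (B : Set (Cyc s)) := by ext v; simp [hB]
    rw [this, finsum_mem_coe_finset]
  rw [e1]
  -- top and bottom vertices
  obtain ⟨dt, _, ht⟩ := Finset.exists_max_image (univ : Finset D) (fun d => dot3 ψ (R.pos d))
    univ_nonempty
  obtain ⟨db, _, hb⟩ := Finset.exists_min_image (univ : Finset D) (fun d => dot3 ψ (R.pos d))
    univ_nonempty
  have ct : chg ψ R (toCyc s dt) = 0 := by
    unfold chg
    rw [Finset.card_eq_zero, Finset.filter_eq_empty_iff]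
    intro d hd'
    rw [mem_fib] at hd'
    have key : ∀ d, toCyc s d = toCyc s dt → upw R ψ d = false := by
      intro d hd
      rw [upw_false R hψ]
      have h1 := ht (a d) (mem_univ _)
      have h2 := hψ d
      rw [Immersion.e, dot_sub] at h2 ⊢
      rw [pos_const R hd] at h2 ⊢
      exact lt_of_le_of_ne (by linarith) h2
    rw [key d hd', key (s d) ((toCyc_apply s d).trans hd')]
    simp
  have cb : chg ψ R (toCyc s db) = 0 := by
    unfold chg
    rw [Finset.card_eq_zero, Finset.filter_eq_empty_iff]
    intro d hd'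
    rw [mem_fib] at hd'
    have key : ∀ d, toCyc s d = toCyc s db → upw R ψ d = true := by
      intro d hd
      rw [upw_true]
      have h1 := hb (a d) (mem_univ _)
      have h2 := hψ d
      rw [Immersion.e, dot_sub] at h2 ⊢
      rw [pos_const R hd] at h2 ⊢
      exact lt_of_le_of_ne (by linarith) h2.symm
    rw [key d hd', key (s d) ((toCyc_apply s d).trans hd')]
    simp
  have hne : toCyc s dt ≠ toCyc s db := by
    intro h
    have h1 := pos_const R h
    have h2 := ht (a dt) (mem_univ _)
    have h3 := hb (a dt) (mem_univ _)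
    rw [← h1] at h3
    apply hψ dt
    rw [Immersion.e, dot_sub]
    have h2' : dot3 ψ (R.pos (a dt)) ≤ dot3 ψ (R.pos dt) := h2
    have h3' : dot3 ψ (R.pos dt) ≤ dot3 ψ (R.pos (a dt)) := h3
    linarith
  -- valence at least four in `B`
  have hB4 : ∀ v ∈ B, 4 ≤ len s v := fun v hv => four_le ha R v ((hBmem v).1 hv)
  have hAinB : ∀ v ∈ A, v ∈ B := fun v hv => (hBmem v).2 (hAinB v hv)
  have pw : ∀ v : Cyc s, ((if v = toCyc s dt then (2 : ℤ) else 0)
      + (if v = toCyc s db then (2 : ℤ) else 0)
      - (if v ∈ B then 2 * (((len s v / 2 : ℕ) : ℤ) - 1) else 0)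
      + (if v ∈ A then (2 : ℤ) else 0)) ≤ 2 - (chg ψ R v : ℤ) := by
    intro v
    by_cases h1 : v = toCyc s dt
    · have h2 : v ≠ toCyc s db := fun h => hne (h1.symm.trans h)
      rw [if_pos h1, if_neg h2]
      have hc : chg ψ R v = 0 := by rw [h1]; exact ct
      by_cases h3 : v ∈ B
      · have h4 := hB4 v h3
        rw [if_pos h3, hc]
        split_ifs <;> push_cast <;> omega
      · have h4 : v ∉ A := fun h => h3 (hAinB v h)
        rw [if_neg h3, if_neg h4, hc]; simp
    · by_cases h2 : v = toCyc s db
      · rw [if_neg h1, if_pos h2]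
        have hc : chg ψ R v = 0 := by rw [h2]; exact cb
        by_cases h3 : v ∈ B
        · have h4 := hB4 v h3
          rw [if_pos h3, hc]
          split_ifs <;> push_cast <;> omega
        · have h4 : v ∉ A := fun h => h3 (hAinB v h)
          rw [if_neg h3, if_neg h4, hc]; simp
      · rw [if_neg h1, if_neg h2]
        by_cases h3 : v ∈ B
        · have h4 := hB4 v h3
          rw [if_pos h3]
          by_cases h5 : v ∈ A
          · have h6 := hAchg v h5
            rw [if_pos h5]
            push_cast; omega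
          · have h6 := chg_le R ψ v
            rw [if_neg h5]
            push_cast; omega
        · have h4 : v ∉ A := fun h => h3 (hAinB v h)
          rw [if_neg h3, if_neg h4]
          have h5 : chg ψ R v ≤ 2 := by
            rw [hBmem] at h3
            apply chg_mono ha R hψ v
            intro d d' hd hd'
            by_contra hcon
            exact h3 ⟨d, d', hd, hd', hcon⟩
          push_cast; omega
  have hsum := Finset.sum_le_sum (s := (univ : Finset (Cyc s))) (fun v _ => pw v)
  rw [Finset.sum_add_distrib, Finset.sum_sub_distrib, Finset.sum_add_distrib] at hsum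
  rw [Finset.sum_ite_eq' univ (toCyc s dt), Finset.sum_ite_eq' univ (toCyc s db)] at hsum
  simp only [mem_univ, if_true] at hsum
  rw [Finset.sum_ite_mem, Finset.univ_inter, Finset.sum_ite_mem, Finset.univ_inter,
    Finset.sum_const, ← Finset.mul_sum, Finset.sum_sub_distrib (s := univ)] at hsum
  have hchg : (∑ v : Cyc s, (chg ψ R v : ℤ))
      = (((univ : Finset D).filter (fun d => upw R ψ d ≠ upw R ψ (s d))).card : ℤ) := by
    rw [← sum_chg ha R ψ]; push_cast; rfl
  rw [hchg] at hsum
  have hE := count_edge ha R hψ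
  have hV := count_vertex ha R hψ
  have hcardV : Nat.card (Cyc s) = (univ : Finset (Cyc s)).card := by
    rw [Nat.card_eq_fintype_card, Finset.card_univ]
  simp only [Finset.sum_const, nsmul_eq_mul] at hsum
  unfold euler
  rw [hcardV]
  have hE' : (Fintype.card D : ℤ) = 2 * (Nat.card (Cyc a) : ℤ) := by rw [hE]; push_cast; ring
  have hV' : (((univ : Finset D).filter (fun d => upw R ψ d ≠ upw R ψ (s d))).card : ℤ)
      + 2 * (Nat.card (Cyc (s * a)) : ℤ) = (Fintype.card D : ℤ) := by exact_mod_cast hV
  linarith

theorem main_bound [Nonempty D] :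
    2 - euler s a
        + max (min 2 (Nat.card {v : Cyc s // v ∈ mixed s (col R) ∧ Even (len s v)} : ℤ))
          (min 1 (Nat.card {v : Cyc s // v ∈ mixed s (col R)} : ℤ))
      ≤ ∑ᶠ v ∈ mixed s (col R), (((len s v / 2 : ℕ) : ℤ) - 1) := by
  classical
  set B : Finset (Cyc s) := univ.filter (fun v => v ∈ mixed s (col R)) with hB
  set Be : Finset (Cyc s) := univ.filter (fun v => v ∈ mixed s (col R) ∧ Even (len s v)) with hBe
  have hBmem : ∀ v, v ∈ B ↔ v ∈ mixed s (col R) := fun v => by simp [hB]
  have e2 : Nat.card {v : Cyc s // v ∈ mixed s (col R) ∧ Even (len s v)} = Be.card := by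
    rw [Nat.card_eq_fintype_card, Fintype.card_subtype]
  have e3 : Nat.card {v : Cyc s // v ∈ mixed s (col R)} = B.card := by
    rw [Nat.card_eq_fintype_card, Fintype.card_subtype]
  rw [e2, e3]
  by_cases hcase : 1 ≤ Be.card ∨ B.card = 0
  · obtain ⟨A, hAB, hAc⟩ := Finset.exists_subset_card_eq (s := Be) (n := min 2 Be.card)
      (min_le_right _ _)
    have hA2 : A.card ≤ 2 := by rw [hAc]; exact min_le_left _ _
    obtain ⟨d1, d2, hd⟩ := two_reps ha (fun d => toCyc s d) Quotient.exists_rep A hA2
    obtain ⟨ψ, hψ, g1, g2⟩ := exists_dir ha R d1 d2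
    have hAchg : ∀ v ∈ A, chg ψ R v + 2 ≤ 2 * (len s v / 2) := by
      intro v hv
      have hev : Even (len s v) := by
        have := hAB hv; rw [hBe, mem_filter] at this; exact this.2.2
      rw [Nat.two_mul_div_two_of_even hev]
      apply chg_pair R ψ v hev
      rcases hd v hv with rfl | rfl
      · exact g1
      · exact g2
    have hAinB : ∀ v ∈ A, v ∈ mixed s (col R) := by
      intro v hv
      have := hAB hv
      rw [hBe, mem_filter] at this
      exact this.2.1
    have h := sum_bound ha R hψ A hAinB hAchg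
    have hmax : max (min 2 (Be.card : ℤ)) (min 1 (B.card : ℤ)) ≤ (A.card : ℤ) := by
      rw [hAc]; push_cast
      apply max_le (le_refl _)
      rcases hcase with h1 | h1
      · apply le_trans (min_le_left _ _)
        apply le_min <;> omega
      · rw [h1]; simp
    linarith
  · push Not at hcase
    obtain ⟨h1, h2⟩ := hcase
    obtain ⟨v, hv⟩ := Finset.card_pos.1 (Nat.pos_of_ne_zero h2)
    obtain ⟨d, hd⟩ := Quotient.exists_rep v
    have hd0 : toCyc s d = v := hd
    have hvm := (hBmem v).1 hv
    have hodd : ¬ Even (len s v) := by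
      intro he
      have : v ∈ Be := by rw [hBe, mem_filter]; exact ⟨mem_univ _, hvm, he⟩
      have := Finset.card_pos.2 ⟨v, this⟩
      omega
    obtain ⟨ψ, hψ, g1, g2⟩ := exists_dir_two ha R d
    have hi : toCyc s (s⁻¹ d) = v := by
      have := toCyc_apply s (s⁻¹ d); rw [ap_inv] at this; rw [← this]; exact hd0
    have hne : s⁻¹ d ≠ s d := by
      intro h
      apply kap_ne ha R d
      unfold kap; rw [h]; simp only [det3]; ring
    have hchg := chg_two R ψ v hodd (u := s⁻¹ d) (u' := s d) hne hi
      ((toCyc_apply s d).trans hd0) (by rw [ap_inv]; exact g1) g2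
    have h := sum_bound ha R hψ {v} (fun w hw => by
      rw [Finset.mem_singleton] at hw; rw [hw]; exact hvm) (fun w hw => by
      rw [Finset.mem_singleton] at hw; rw [hw]; exact hchg)
    rw [Finset.card_singleton, Nat.cast_one] at h
    have hmax : max (min 2 (Be.card : ℤ)) (min 1 (B.card : ℤ)) ≤ 1 := by
      apply max_le _ (min_le_left _ _)
      apply le_trans (min_le_right _ _)
      omega
    linarith

end global

end Pool.Agent.FBK
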