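import Pool.Agent.FBK.Vec

set_option autoImplicit false

/-! A closed embedded spherical polygon that turns to the left at every corner is convex. -/

namespace Pool.Agent.FBK

theorem fourv (X Y Z W : Fin 3 → ℝ) :
    det3 X Y Z • W = det3 W Y Z • X + det3 X W Z • Y + det3 X Y W • Z := by
  funext i
  simp only [Pi.add_apply, Pi.smul_apply, smul_eq_mul, det3]
  fin_cases i <;> simp <;> ring

/-- a closed left-turning embedded sequence of vectors -/
structure LSeq where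
  e : ℤ → Fin 3 → ℝ
  d : ℤ
  per : ∀ t, e (t + d) = e t
  turn : ∀ t, 0 < det3 (e (t - 1)) (e t) (e (t + 1))
  emb : ∀ t t', t + 2 ≤ t' → t' + 2 ≤ t + d → ∀ α β γ δ : ℝ, 0 ≤ α → 0 ≤ β → 0 ≤ γ → 0 ≤ δ →
    α • e t + β • e (t + 1) = γ • e t' + δ • e (t' + 1) → α = 0 ∧ β = 0

namespace LSeq

variable (S : LSeq)

/-- the side of the plane of the arc from `t` to `t + 1` -/
def f (t : ℤ) (x : Fin 3 → ℝ) : ℝ := det3 (S.e t) (S.e (t + 1)) x

theorem f_add (t : ℤ) (x y : Fin 3 → ℝ) : S.f t (x + y) = S.f t x + S.f t y := by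
  simp only [f, det3, Pi.add_apply]; ring

theorem f_smul (t : ℤ) (c : ℝ) (x : Fin 3 → ℝ) : S.f t (c • x) = c * S.f t x := by
  simp only [f, det3, Pi.smul_apply, smul_eq_mul]; ring

theorem f_self (t : ℤ) : S.f t (S.e t) = 0 := by simp only [f, det3]; ring

theorem f_self' (t : ℤ) : S.f t (S.e (t + 1)) = 0 := by simp only [f, det3]; ring

theorem f_next (t : ℤ) : 0 < S.f t (S.e (t + 2)) := by
  have h := S.turn (t + 1)
  rw [show t + 1 - 1 = t by ring, show t + 1 + 1 = t + 2 by ring] at h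
  exact h

theorem f_prev (t : ℤ) : 0 < S.f t (S.e (t - 1)) := by
  have h := S.turn t
  have : S.f t (S.e (t - 1)) = det3 (S.e (t - 1)) (S.e t) (S.e (t + 1)) := by
    simp only [f, det3]; ring
  rw [this]; exact h

theorem per' (t : ℤ) : S.e (t - S.d) = S.e t := by
  have := S.per (t - S.d); rw [sub_add_cancel] at this; exact this.symm

theorem indep {t : ℤ} {α β : ℝ} (h : α • S.e t + β • S.e (t + 1) = 0) : α = 0 ∧ β = 0 := by
  have hk := S.turn t
  constructor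
  · have h1 : α * det3 (S.e (t - 1)) (S.e t) (S.e (t + 1))
        = det3 (S.e (t - 1)) (α • S.e t + β • S.e (t + 1)) (S.e (t + 1)) := by
      simp only [det3, Pi.add_apply, Pi.smul_apply, smul_eq_mul]; ring
    rw [h] at h1
    have h2 : det3 (S.e (t - 1)) 0 (S.e (t + 1)) = 0 := by simp [det3]
    rw [h2] at h1
    rcases mul_eq_zero.1 h1 with h3 | h3
    · exact h3
    · exact absurd h3 hk.ne'
  · have h1 : β * det3 (S.e (t - 1)) (S.e t) (S.e (t + 1))
        = det3 (S.e (t - 1)) (S.e t) (α • S.e t + β • S.e (t + 1)) := by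
      simp only [det3, Pi.add_apply, Pi.smul_apply, smul_eq_mul]; ring
    rw [h] at h1
    have h2 : det3 (S.e (t - 1)) (S.e t) 0 = 0 := by simp [det3]
    rw [h2] at h1
    rcases mul_eq_zero.1 h1 with h3 | h3
    · exact h3
    · exact absurd h3 hk.ne'

/-- the arc from `t` to `t + 1` -/
def InC (t : ℤ) (x : Fin 3 → ℝ) : Prop :=
  ∃ α β : ℝ, 0 ≤ α ∧ 0 ≤ β ∧ x = α • S.e t + β • S.e (t + 1)

theorem disj {t t' : ℤ} (h1 : t + 2 ≤ t') (h2 : t' + 2 ≤ t + S.d) {x : Fin 3 → ℝ}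
    (hx : S.InC t x) (hx' : S.InC t' x) : x = 0 := by
  obtain ⟨α, β, hα, hβ, rfl⟩ := hx
  obtain ⟨γ, δ, hγ, hδ, h⟩ := hx'
  obtain ⟨h3, h4⟩ := S.emb t t' h1 h2 α β γ δ hα hβ hγ hδ h
  rw [h3, h4]; simp

theorem inC_left (t : ℤ) {c : ℝ} (hc : 0 ≤ c) : S.InC t (c • S.e t) :=
  ⟨c, 0, hc, le_refl _, by simp⟩

theorem inC_right (t : ℤ) {c : ℝ} (hc : 0 ≤ c) : S.InC t (c • S.e (t + 1)) :=
  ⟨0, c, le_refl _, hc, by simp⟩

/-- the window from `p` to `q` is convex -/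
def Conv (p q : ℤ) : Prop :=
  ∀ t r, p ≤ t → t + 1 ≤ q → p ≤ r → r ≤ q → r ≠ t → r ≠ t + 1 → 0 < S.f t (S.e r)

/-- the region of the window from `p` to `q` -/
def InR (p q : ℤ) (x : Fin 3 → ℝ) : Prop := ∀ t, p ≤ t → t + 1 ≤ q → 0 ≤ S.f t x

theorem inR_add {p q : ℤ} {x y : Fin 3 → ℝ} (hx : S.InR p q x) (hy : S.InR p q y) :
    S.InR p q (x + y) := by
  intro t h1 h2; rw [f_add]; exact add_nonneg (hx t h1 h2) (hy t h1 h2)

theorem inR_smul {p q : ℤ} {x : Fin 3 → ℝ} {c : ℝ} (hc : 0 ≤ c) (hx : S.InR p q x) :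
    S.InR p q (c • x) := by
  intro t h1 h2; rw [f_smul]; exact mul_nonneg hc (hx t h1 h2)

theorem inR_of_inC {p q t : ℤ} {x : Fin 3 → ℝ} (h : S.InC t x) (h1 : S.InR p q (S.e t))
    (h2 : S.InR p q (S.e (t + 1))) : S.InR p q x := by
  obtain ⟨α, β, hα, hβ, rfl⟩ := h
  exact S.inR_add (S.inR_smul hα h1) (S.inR_smul hβ h2)

/-- a window that is minimal among the windows that are not convex -/
def MinBad (p q : ℤ) : Prop := ¬ S.Conv p q ∧ S.Conv (p + 1) q ∧ S.Conv p (q - 1)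

theorem exists_minBad (n : ℕ) : ∀ p q : ℤ, q - p ≤ n → ¬ S.Conv p q →
    ∃ p' q', p ≤ p' ∧ q' ≤ q ∧ S.MinBad p' q' := by
  induction n with
  | zero =>
    intro p q h hc
    exfalso; apply hc
    intro t r h1 h2 h3 h4 h5 h6
    omega
  | succ n ih =>
    intro p q h hc
    by_cases h1 : S.Conv (p + 1) q
    · by_cases h2 : S.Conv p (q - 1)
      · exact ⟨p, q, le_refl _, le_refl _, hc, h1, h2⟩
      · obtain ⟨p', q', h3, h4, h5⟩ := ih p (q - 1) (by push_cast at h; omega) h2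
        exact ⟨p', q', h3, by omega, h5⟩
    · obtain ⟨p', q', h3, h4, h5⟩ := ih (p + 1) q (by push_cast at h; omega) h1
      exact ⟨p', q', by omega, h4, h5⟩

theorem minBad_len {p q : ℤ} (h : S.MinBad p q) : p + 3 ≤ q := by
  by_contra hcon
  apply h.1
  intro t r h1 h2 h3 h4 h5 h6
  have hq : q = p + 2 := by omega
  have ht : (t = p ∧ r = p + 2) ∨ (t = p + 1 ∧ r = p) := by omega
  rcases ht with ⟨rfl, rfl⟩ | ⟨rfl, rfl⟩
  · exact S.f_next _
  · have := S.f_prev (r + 1); rwa [show r + 1 - 1 = r by ring] at this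

theorem minBad_cases {p q : ℤ} (h : S.MinBad p q) :
    S.f p (S.e q) ≤ 0 ∨ S.f (q - 1) (S.e p) ≤ 0 := by
  by_contra hcon
  push Not at hcon
  apply h.1
  intro t r h1 h2 h3 h4 h5 h6
  by_cases hA : p + 1 ≤ t ∧ p + 1 ≤ r
  · exact h.2.1 t r hA.1 h2 hA.2 h4 h5 h6
  by_cases hB : t + 1 ≤ q - 1 ∧ r ≤ q - 1
  · exact h.2.2 t r h1 hB.1 h3 hB.2 h5 h6
  have hl := S.minBad_len h
  have : (t = p ∧ r = q) ∨ (t = q - 1 ∧ r = p) := by omega
  rcases this with ⟨rfl, rfl⟩ | ⟨rfl, rfl⟩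
  · exact hcon.1
  · exact hcon.2

/-- the crossing point of the first and the last arc of a window -/
def z (p q : ℤ) : Fin 3 → ℝ := S.f p (S.e (q - 1)) • S.e q + (-S.f p (S.e q)) • S.e (q - 1)

theorem z_eq (p q : ℤ) : S.z p q
    = S.f (q - 1) (S.e (p + 1)) • S.e p + (-S.f (q - 1) (S.e p)) • S.e (p + 1) := by
  have h := fourv (S.e p) (S.e (p + 1)) (S.e (q - 1)) (S.e q)
  have h1 : det3 (S.e q) (S.e (p + 1)) (S.e (q - 1)) = S.f (q - 1) (S.e (p + 1)) := by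
    simp only [f, det3, sub_add_cancel]; ring
  have h2 : det3 (S.e p) (S.e q) (S.e (q - 1)) = - S.f (q - 1) (S.e p) := by
    simp only [f, det3, sub_add_cancel]; ring
  rw [h1, h2] at h
  unfold z
  change det3 (S.e p) (S.e (p + 1)) (S.e (q - 1)) • S.e q
    + (- det3 (S.e p) (S.e (p + 1)) (S.e q)) • S.e (q - 1) = _
  rw [h]
  module

end LSeq

end Pool.Agent.FBK
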