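import Pool.Agent.FBK.Turn

set_option autoImplicit false

/-! Regions of minimal non-convex windows. -/

namespace Pool.Agent.FBK

namespace LSeq

variable (S : LSeq)

section basics

variable {p q : ℤ} (h : S.MinBad p q) (hq : q ≤ p + S.d - 1)

include h hq

theorem a1_pos : 0 < S.f p (S.e (q - 1)) := by
  have hl := S.minBad_len h
  exact h.2.2 p (q - 1) (le_refl _) (by omega) (by omega) (le_refl _) (by omega) (by omega)

theorem lam_pos : 0 < S.f (q - 1) (S.e (p + 1)) := by
  have hl := S.minBad_len h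
  exact h.2.1 (q - 1) (p + 1) (by omega) (by omega) (le_refl _) (by omega) (by omega) (by omega)

theorem z_inC_last (hA : S.f p (S.e q) ≤ 0) : S.InC (q - 1) (S.z p q) := by
  have h1 := S.a1_pos h hq
  refine ⟨-S.f p (S.e q), S.f p (S.e (q - 1)), by linarith, h1.le, ?_⟩
  unfold z
  rw [sub_add_cancel]; exact add_comm _ _

theorem z_ne (hA : S.f p (S.e q) ≤ 0) : S.z p q ≠ 0 := by
  intro h0
  have h1 := S.a1_pos h hq
  have h2 : (-S.f p (S.e q)) • S.e (q - 1) + S.f p (S.e (q - 1)) • S.e (q - 1 + 1) = 0 := by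
    rw [sub_add_cancel, add_comm]; exact h0
  exact h1.ne' (S.indep h2).2

/-- the two violations cannot happen together -/
theorem not_both (hA : S.f p (S.e q) ≤ 0) (hB : S.f (q - 1) (S.e p) ≤ 0) : False := by
  have hl := S.minBad_len h
  have h1 := S.lam_pos h hq
  have hz : S.InC p (S.z p q) := ⟨S.f (q - 1) (S.e (p + 1)), -S.f (q - 1) (S.e p), h1.le,
    by linarith, S.z_eq p q⟩
  exact S.z_ne h hq hA (S.disj (by omega) (by omega) hz (S.z_inC_last h hq hA))

end basics

/-- a minimal bad window whose last vertex is on the wrong side of the first arc -/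
structure Fwd (p q : ℤ) : Prop where
  mb : S.MinBad p q
  le : q ≤ p + S.d - 1
  hA : S.f p (S.e q) ≤ 0
  hB : 0 < S.f (q - 1) (S.e p)

section forward

variable {S} {p q : ℤ} (F : S.Fwd p q)

include F

theorem Fwd.len : p + 3 ≤ q := S.minBad_len F.mb

theorem Fwd.vert {r : ℤ} (h1 : p ≤ r) (h2 : r ≤ q - 1) : S.InR p q (S.e r) := by
  have hl := F.len
  intro t h3 h4
  by_cases hr : r = t
  · rw [hr, f_self]
  by_cases hr' : r = t + 1
  · rw [hr', f_self']
  by_cases ht : t + 1 ≤ q - 1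
  · exact (F.mb.2.2 t r h3 ht h1 h2 hr hr').le
  · have ht' : t = q - 1 := by omega
    subst ht'
    by_cases hp : r = p
    · rw [hp]; exact F.hB.le
    · exact (F.mb.2.1 (q - 1) r (by omega) h4 (by omega) (by omega) hr hr').le

theorem Fwd.f_z_first : S.f p (S.z p q) = 0 := by
  unfold z; rw [f_add, f_smul, f_smul]; ring

theorem Fwd.f_z_last : S.f (q - 1) (S.z p q) = 0 := by
  unfold z; rw [f_add, f_smul, f_smul, f_self]
  have := S.f_self' (q - 1); rw [sub_add_cancel] at this; rw [this]; ring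

theorem Fwd.f_z_mid {t : ℤ} (h1 : p + 1 ≤ t) (h2 : t + 1 ≤ q - 1) : 0 < S.f t (S.z p q) := by
  have hl := F.len
  unfold z; rw [f_add, f_smul, f_smul]
  have ha := S.a1_pos F.mb F.le
  have hq : 0 < S.f t (S.e q) :=
    F.mb.2.1 t q h1 (by omega) (by omega) (le_refl _) (by omega) (by omega)
  have hq' : 0 ≤ S.f t (S.e (q - 1)) := by
    by_cases ht : q - 1 = t + 1
    · rw [ht, f_self']
    · exact (F.mb.2.1 t (q - 1) h1 (by omega) (by omega) (by omega) (by omega) ht).le
  have hA := F.hA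
  have h3 := mul_pos ha hq
  have h4 := mul_nonneg (by linarith : 0 ≤ -S.f p (S.e q)) hq'
  linarith

theorem Fwd.z_inR : S.InR p q (S.z p q) := by
  intro t h1 h2
  by_cases h3 : t = p
  · rw [h3, F.f_z_first]
  by_cases h4 : t = q - 1
  · rw [h4, F.f_z_last]
  exact (F.f_z_mid (by omega) (by omega)).le

theorem Fwd.hull {x : Fin 3 → ℝ} (hx : S.InR p q x) : ∃ t, p + 1 ≤ t ∧ t + 1 ≤ q - 1 ∧
    ∃ c0 c1 c2 : ℝ, 0 ≤ c0 ∧ 0 ≤ c1 ∧ 0 ≤ c2 ∧
      x = c0 • S.z p q + c1 • S.e t + c2 • S.e (t + 1) := by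
  have hl := F.len
  have ha := S.a1_pos F.mb F.le
  have hlam := S.lam_pos F.mb F.le
  set g : ℤ → ℝ := fun r => det3 (S.z p q) (S.e r) x with hg
  have g1 : 0 ≤ g (p + 1) := by
    have : g (p + 1) = S.f (q - 1) (S.e (p + 1)) * S.f p x := by
      rw [hg]; simp only; rw [z_eq]
      simp only [f, det3, Pi.add_apply, Pi.smul_apply, smul_eq_mul]; ring
    rw [this]; exact mul_nonneg hlam.le (hx p (le_refl _) (by omega))
  have g2 : g (q - 1) ≤ 0 := by
    have : g (q - 1) = - (S.f p (S.e (q - 1)) * S.f (q - 1) x) := by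
      rw [hg]; simp only; unfold z
      have e1 : S.f (q - 1) x = det3 (S.e (q - 1)) (S.e q) x := by
        unfold f; rw [sub_add_cancel]
      rw [e1]
      simp only [f, det3, Pi.add_apply, Pi.smul_apply, smul_eq_mul]; ring
    rw [this]
    have := mul_nonneg ha.le (hx (q - 1) (by omega) (by omega))
    linarith
  have key : ∃ t, p + 1 ≤ t ∧ t + 1 ≤ q - 1 ∧ 0 ≤ g t ∧ g (t + 1) ≤ 0 := by
    by_contra hcon
    push Not at hcon
    have step : ∀ n : ℕ, p + 1 + n ≤ q - 2 → 0 ≤ g (p + 1 + n) := by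
      intro n
      induction n with
      | zero => intro _; simpa using g1
      | succ n ih =>
        intro hn
        push_cast at hn ⊢
        have := hcon (p + 1 + n) (by omega) (by omega) (ih (by omega))
        rw [show p + 1 + (n + 1 : ℤ) = p + 1 + n + 1 by ring]
        exact this.le
    obtain ⟨n, hn⟩ := Int.eq_ofNat_of_zero_le (show 0 ≤ q - 2 - (p + 1) by omega)
    have h1 := step n (by omega)
    have h2 := hcon (p + 1 + n) (by omega) (by omega) h1
    rw [show p + 1 + (n : ℤ) + 1 = q - 1 by omega] at h2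
    linarith
  obtain ⟨t, h1, h2, h3, h4⟩ := key
  refine ⟨t, h1, h2, ?_⟩
  have hD : 0 < det3 (S.z p q) (S.e t) (S.e (t + 1)) := by
    have := F.f_z_mid h1 h2
    have e : det3 (S.z p q) (S.e t) (S.e (t + 1)) = S.f t (S.z p q) := by
      simp only [f, det3]; ring
    rw [e]; exact this
  set D := det3 (S.z p q) (S.e t) (S.e (t + 1)) with hDdef
  have h5 := fourv (S.z p q) (S.e t) (S.e (t + 1)) x
  have e1 : det3 x (S.e t) (S.e (t + 1)) = S.f t x := by simp only [f, det3]; ring
  have e2 : det3 (S.z p q) x (S.e (t + 1)) = - g (t + 1) := by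
    rw [hg]; simp only [det3]; ring
  have e3 : det3 (S.z p q) (S.e t) x = g t := rfl
  rw [e1, e2, e3] at h5
  have hf : 0 ≤ S.f t x := hx t (by omega) (by omega)
  refine ⟨S.f t x / D, -g (t + 1) / D, g t / D, by positivity, ?_, by positivity, ?_⟩
  · exact div_nonneg (by linarith) hD.le
  · calc x = D⁻¹ • (D • x) := by rw [smul_smul, inv_mul_cancel₀ hD.ne', one_smul]
      _ = D⁻¹ • (S.f t x • S.z p q + -g (t + 1) • S.e t + g t • S.e (t + 1)) := by rw [h5]
      _ = (S.f t x / D) • S.z p q + (-g (t + 1) / D) • S.e t + (g t / D) • S.e (t + 1) := by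
        rw [smul_add, smul_add, smul_smul, smul_smul, smul_smul, div_eq_inv_mul, div_eq_inv_mul,
          div_eq_inv_mul]

end forward

end LSeq

end Pool.Agent.FBK
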