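import Pool.Agent.FBK.TurnB

set_option autoImplicit false

/-! Facets of the region of a window, the mirror image, and the descent. -/

namespace Pool.Agent.FBK

namespace LSeq

variable (S : LSeq)

section facets

variable {S} {p q : ℤ} (F : S.Fwd p q)

include F

theorem Fwd.split {t0 : ℤ} (h0 : p ≤ t0) (h0' : t0 + 1 ≤ q) {y : Fin 3 → ℝ}
    (hy : S.InR p q y) (h : S.f t0 y = 0) : ∃ t, p + 1 ≤ t ∧ t + 1 ≤ q - 1 ∧
    ∃ c0 c1 c2 : ℝ, 0 ≤ c0 ∧ 0 ≤ c1 ∧ 0 ≤ c2 ∧
      y = c0 • S.z p q + c1 • S.e t + c2 • S.e (t + 1) ∧ c0 * S.f t0 (S.z p q) = 0 ∧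
      c1 * S.f t0 (S.e t) = 0 ∧ c2 * S.f t0 (S.e (t + 1)) = 0 := by
  obtain ⟨t, h1, h2, c0, c1, c2, hc0, hc1, hc2, rfl⟩ := F.hull hy
  refine ⟨t, h1, h2, c0, c1, c2, hc0, hc1, hc2, rfl, ?_⟩
  rw [f_add, f_add, f_smul, f_smul, f_smul] at h
  have a0 := mul_nonneg hc0 (F.z_inR t0 h0 h0')
  have a1 := mul_nonneg hc1 (F.vert (r := t) (by omega) (by omega) t0 h0 h0')
  have a2 := mul_nonneg hc2 (F.vert (r := t + 1) (by omega) (by omega) t0 h0 h0')
  exact ⟨by linarith, by linarith, by linarith⟩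

theorem Fwd.facet_mid {t0 : ℤ} (h0 : p + 1 ≤ t0) (h0' : t0 + 1 ≤ q - 1) {y : Fin 3 → ℝ}
    (hy : S.InR p q y) (h : S.f t0 y = 0) : S.InC t0 y := by
  obtain ⟨t, h1, h2, c0, c1, c2, hc0, hc1, hc2, rfl, b0, b1, b2⟩ :=
    F.split (by omega) (by omega) hy h
  have z0 : c0 = 0 := by
    rcases mul_eq_zero.1 b0 with h3 | h3
    · exact h3
    · exact absurd h3 (F.f_z_mid h0 h0').ne'
  have pos : ∀ r, p ≤ r → r ≤ q - 1 → r ≠ t0 → r ≠ t0 + 1 → 0 < S.f t0 (S.e r) :=
    fun r h3 h4 h5 h6 => F.mb.2.2 t0 r (by omega) h0' h3 h4 h5 h6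
  have z1 : t ≠ t0 → t ≠ t0 + 1 → c1 = 0 := by
    intro h5 h6
    rcases mul_eq_zero.1 b1 with h3 | h3
    · exact h3
    · exact absurd h3 (pos t (by omega) (by omega) h5 h6).ne'
  have z2 : t + 1 ≠ t0 → t + 1 ≠ t0 + 1 → c2 = 0 := by
    intro h5 h6
    rcases mul_eq_zero.1 b2 with h3 | h3
    · exact h3
    · exact absurd h3 (pos (t + 1) (by omega) (by omega) h5 h6).ne'
  rw [z0, zero_smul, zero_add]
  by_cases e1 : t = t0
  · exact ⟨c1, c2, hc1, hc2, by rw [e1]⟩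
  by_cases e2 : t = t0 + 1
  · rw [z2 (by omega) (by omega), e2, zero_smul, add_zero]
    exact S.inC_right t0 hc1
  rw [z1 e1 e2, zero_smul, zero_add]
  by_cases e3 : t + 1 = t0
  · rw [e3]; exact S.inC_left t0 hc2
  rw [z2 e3 (by omega), zero_smul]
  exact ⟨0, 0, le_refl _, le_refl _, by simp⟩

theorem Fwd.facet_last {y : Fin 3 → ℝ} (hy : S.InR p q y) (h : S.f (q - 1) y = 0) :
    S.InC (q - 1) y := by
  have hl := F.len
  obtain ⟨t, h1, h2, c0, c1, c2, hc0, hc1, hc2, rfl, b0, b1, b2⟩ :=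
    F.split (by omega) (by omega) hy h
  have pos : ∀ r, p + 1 ≤ r → r ≤ q - 2 → 0 < S.f (q - 1) (S.e r) :=
    fun r h3 h4 => F.mb.2.1 (q - 1) r (by omega) (by omega) h3 (by omega) (by omega) (by omega)
  have z1 : c1 = 0 := by
    rcases mul_eq_zero.1 b1 with h3 | h3
    · exact h3
    · exact absurd h3 (pos t (by omega) (by omega)).ne'
  have hz := S.z_inC_last F.mb F.le F.hA
  obtain ⟨α, β, hα, hβ, hz⟩ := hz
  rw [z1, zero_smul, add_zero, hz]
  by_cases e2 : t + 1 = q - 1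
  · rw [e2]
    exact ⟨c0 * α + c2, c0 * β, by positivity, by positivity, by module⟩
  · have z2 : c2 = 0 := by
      rcases mul_eq_zero.1 b2 with h3 | h3
      · exact h3
      · exact absurd h3 (pos (t + 1) (by omega) (by omega)).ne'
    rw [z2]
    exact ⟨c0 * α, c0 * β, by positivity, by positivity, by module⟩

theorem Fwd.facet_first {y : Fin 3 → ℝ} (hy : S.InR p q y) (h : S.f p y = 0) :
    ∃ c0 c1 : ℝ, 0 ≤ c0 ∧ 0 ≤ c1 ∧ y = c0 • S.z p q + c1 • S.e (p + 1) := by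
  have hl := F.len
  obtain ⟨t, h1, h2, c0, c1, c2, hc0, hc1, hc2, rfl, b0, b1, b2⟩ :=
    F.split (le_refl _) (by omega) hy h
  have pos : ∀ r, p + 2 ≤ r → r ≤ q - 1 → 0 < S.f p (S.e r) :=
    fun r h3 h4 => F.mb.2.2 p r (le_refl _) (by omega) (by omega) h4 (by omega) (by omega)
  have z2 : c2 = 0 := by
    rcases mul_eq_zero.1 b2 with h3 | h3
    · exact h3
    · exact absurd h3 (pos (t + 1) (by omega) (by omega)).ne'
  rw [z2]
  by_cases e1 : t = p + 1
  · exact ⟨c0, c1, hc0, hc1, by rw [e1]; module⟩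
  · have z1 : c1 = 0 := by
      rcases mul_eq_zero.1 b1 with h3 | h3
      · exact h3
      · exact absurd h3 (pos t (by omega) (by omega)).ne'
    exact ⟨c0, 0, hc0, le_refl _, by rw [z1]; module⟩

end facets

/-! ### mirror image -/

/-- the mirror image of a sequence -/
def mirror (S : LSeq) : LSeq where
  e t := -S.e (-t)
  d := S.d
  per t := by
    have := S.per (-t - S.d)
    rw [sub_add_cancel] at this
    rw [show -(t + S.d) = -t - S.d by ring, this]
  turn t := by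
    have h := S.turn (-t)
    have e1 : -(t - 1) = -t + 1 := by ring
    have e2 : -(t + 1) = -t - 1 := by ring
    rw [e1, e2]
    have : det3 (-S.e (-t + 1)) (-S.e (-t)) (-S.e (-t - 1))
        = det3 (S.e (-t - 1)) (S.e (-t)) (S.e (-t + 1)) := by
      simp only [det3, Pi.neg_apply]; ring
    rw [this]; exact h
  emb t t' h1 h2 α β γ δ hα hβ hγ hδ h := by
    have h3 := S.emb (-t' - 1) (-t - 1) (by omega) (by omega) δ γ β α hδ hγ hβ hα (by
      rw [show -t' - 1 + 1 = -t' by ring, show -t - 1 + 1 = -t by ring]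
      rw [show -(t + 1) = -t - 1 by ring, show -(t' + 1) = -t' - 1 by ring] at h
      have h' : α • S.e (-t) + β • S.e (-t - 1) = γ • S.e (-t') + δ • S.e (-t' - 1) := by
        have : -(α • S.e (-t) + β • S.e (-t - 1)) = -(γ • S.e (-t') + δ • S.e (-t' - 1)) := by
          rw [neg_add, neg_add, ← smul_neg, ← smul_neg, ← smul_neg, ← smul_neg]; exact h
        exact neg_injective this
      rw [add_comm (δ • S.e (-t' - 1)), add_comm (β • S.e (-t - 1))]
      exact h'.symm)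
    rw [h3.1, h3.2, zero_smul, zero_smul, add_zero] at h
    have h4 : β • S.e (-t - 1) + α • S.e (-t - 1 + 1) = 0 := by
      rw [show -t - 1 + 1 = -t by ring]
      rw [show -(t + 1) = -t - 1 by ring] at h
      have : -(β • S.e (-t - 1) + α • S.e (-t)) = 0 := by
        rw [← h]; module
      exact neg_eq_zero.1 this
    have h5 := S.indep h4
    exact ⟨h5.2, h5.1⟩

theorem mirror_e (t : ℤ) : S.mirror.e t = -S.e (-t) := rfl

theorem mirror_d : S.mirror.d = S.d := rfl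

theorem mirror_f (t : ℤ) (x : Fin 3 → ℝ) : S.mirror.f t x = -S.f (-t - 1) x := by
  unfold f
  rw [mirror_e, mirror_e, show -(t + 1) = -t - 1 by ring, show -t - 1 + 1 = -t by ring]
  simp only [det3, Pi.neg_apply]; ring

theorem f_neg (t : ℤ) (x : Fin 3 → ℝ) : S.f t (-x) = -S.f t x := by
  simp only [f, det3, Pi.neg_apply]; ring

theorem mirror_fe (t r : ℤ) : S.mirror.f t (S.mirror.e r) = S.f (-t - 1) (S.e (-r)) := by
  rw [mirror_f, mirror_e, f_neg, neg_neg]

theorem mirror_conv (p q : ℤ) : S.mirror.Conv (-q) (-p) ↔ S.Conv p q := by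
  constructor
  · intro h t r h1 h2 h3 h4 h5 h6
    have := h (-t - 1) (-r) (by omega) (by omega) (by omega) (by omega) (by omega) (by omega)
    rw [mirror_fe] at this
    rwa [show -(-t - 1) - 1 = t by ring, neg_neg] at this
  · intro h t r h1 h2 h3 h4 h5 h6
    rw [mirror_fe]
    exact h (-t - 1) (-r) (by omega) (by omega) (by omega) (by omega) (by omega) (by omega)

theorem mirror_minBad {p q : ℤ} (h : S.MinBad p q) : S.mirror.MinBad (-q) (-p) := by
  refine ⟨fun hc => h.1 ((S.mirror_conv p q).1 hc), ?_, ?_⟩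
  · have := (S.mirror_conv p (q - 1)).2 h.2.2
    rwa [show -(q - 1) = -q + 1 by ring] at this
  · have := (S.mirror_conv (p + 1) q).2 h.2.1
    rwa [show -(p + 1) = -p - 1 by ring] at this

theorem mirror_inR (p q : ℤ) (x : Fin 3 → ℝ) :
    S.mirror.InR (-q) (-p) x ↔ S.InR p q (-x) := by
  constructor
  · intro h t h1 h2
    have := h (-t - 1) (by omega) (by omega)
    rw [mirror_f, show -(-t - 1) - 1 = t by ring] at this
    rwa [f_neg]
  · intro h t h1 h2
    rw [mirror_f, ← f_neg]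
    exact h (-t - 1) (by omega) (by omega)

theorem mirror_fwd {p q : ℤ} (h : S.MinBad p q) (hq : q ≤ p + S.d - 1)
    (hA : 0 < S.f p (S.e q)) (hB : S.f (q - 1) (S.e p) ≤ 0) : S.mirror.Fwd (-q) (-p) where
  mb := S.mirror_minBad h
  le := by rw [mirror_d]; omega
  hA := by rw [mirror_fe, neg_neg, neg_neg]; exact hB
  hB := by
    rw [mirror_fe, neg_neg, show -(-p - 1) - 1 = p by ring]; exact hA

theorem cases {p q : ℤ} (h : S.MinBad p q) (hq : q ≤ p + S.d - 1) :
    S.Fwd p q ∨ S.mirror.Fwd (-q) (-p) := by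
  by_cases hA : S.f p (S.e q) ≤ 0
  · left
    refine ⟨h, hq, hA, ?_⟩
    by_contra hcon
    exact S.not_both h hq hA (not_lt.1 hcon)
  · right
    rcases S.minBad_cases h with h1 | h1
    · exact absurd h1 hA
    · exact S.mirror_fwd h hq (not_le.1 hA) h1

theorem mirror_inC (t : ℤ) (x : Fin 3 → ℝ) : S.mirror.InC t x ↔ S.InC (-t - 1) (-x) := by
  constructor
  · rintro ⟨α, β, hα, hβ, rfl⟩
    refine ⟨β, α, hβ, hα, ?_⟩
    rw [mirror_e, mirror_e, show -(t + 1) = -t - 1 by ring, show -t - 1 + 1 = -t by ring]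
    module
  · rintro ⟨α, β, hα, hβ, h⟩
    refine ⟨β, α, hβ, hα, ?_⟩
    rw [show -t - 1 + 1 = -t by ring] at h
    rw [mirror_e, mirror_e, show -(t + 1) = -t - 1 by ring, ← neg_neg x, h]
    module

/-- the region of a minimal bad window of any kind is spanned by its inner vertices and a point
of its first or last arc -/
theorem hull {p q : ℤ} (h : S.MinBad p q) (hq : q ≤ p + S.d - 1) :
    ∃ w, (S.InC p w ∨ S.InC (q - 1) w) ∧ ∀ x, S.InR p q x → ∃ t, p + 1 ≤ t ∧ t + 1 ≤ q - 1 ∧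
      ∃ c0 c1 c2 : ℝ, 0 ≤ c0 ∧ 0 ≤ c1 ∧ 0 ≤ c2 ∧ x = c0 • w + c1 • S.e t + c2 • S.e (t + 1) := by
  rcases S.cases h hq with F | F
  · exact ⟨S.z p q, Or.inr (S.z_inC_last h hq F.hA), fun x hx => F.hull hx⟩
  · refine ⟨-S.mirror.z (-q) (-p), Or.inl ?_, ?_⟩
    · have h1 := S.mirror.z_inC_last F.mb F.le F.hA
      have h2 := (S.mirror_inC _ _).1 h1
      rwa [show -(-p - 1) - 1 = p by ring] at h2
    · intro x hx
      have h1 : S.mirror.InR (-q) (-p) (-x) := (S.mirror_inR p q (-x)).2 (by rwa [neg_neg])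
      obtain ⟨t, h2, h3, c0, c1, c2, hc0, hc1, hc2, h4⟩ := F.hull h1
      refine ⟨-t - 1, by omega, by omega, c0, c2, c1, hc0, hc2, hc1, ?_⟩
      rw [mirror_e, mirror_e, show -(t + 1) = -t - 1 by ring] at h4
      rw [show -t - 1 + 1 = -t by ring, ← neg_neg x, h4]
      module

end LSeq

end Pool.Agent.FBK
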