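import Pool.Agent.FBK.TurnC

set_option autoImplicit false

/-! The descent: a closed embedded left-turning sequence is convex. -/

namespace Pool.Agent.FBK

namespace LSeq

variable (S : LSeq)

theorem int_switch {P : ℤ → Prop} {a b : ℤ} (hab : a ≤ b) (ha : P a) (hb : ¬ P b) :
    ∃ r, a ≤ r ∧ r + 1 ≤ b ∧ P r ∧ ¬ P (r + 1) := by
  by_contra hcon
  push Not at hcon
  have step : ∀ n : ℕ, a + n ≤ b → P (a + n) := by
    intro n
    induction n with
    | zero => intro _; simpa using ha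
    | succ n ih =>
      intro hn
      push_cast at hn ⊢
      have := hcon (a + n) (by omega) (by omega) (ih (by omega))
      rwa [show a + ((n : ℤ) + 1) = a + n + 1 by ring]
  obtain ⟨n, hn⟩ := Int.eq_ofNat_of_zero_le (show 0 ≤ b - a by omega)
  have h1 := step n (by omega)
  rw [show a + (n : ℤ) = b by omega] at h1
  exact hb h1

theorem e_ne (t : ℤ) : S.e t ≠ 0 := by
  intro h0
  have h1 : (1 : ℝ) • S.e t + (0 : ℝ) • S.e (t + 1) = 0 := by rw [h0]; simp
  exact one_ne_zero (S.indep h1).1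

theorem on_axis {t : ℤ} {x : Fin 3 → ℝ} (h1 : S.f t x = 0) (h2 : S.f (t + 1) x = 0) :
    ∃ μ : ℝ, x = μ • S.e (t + 1) := by
  have hk := S.f_next t
  have h := fourv (S.e t) (S.e (t + 1)) (S.e (t + 2)) x
  have e1 : det3 x (S.e (t + 1)) (S.e (t + 2)) = S.f (t + 1) x := by
    unfold f; rw [show t + 1 + 1 = t + 2 by ring]; simp only [det3]; ring
  have e2 : det3 (S.e t) (S.e (t + 1)) x = S.f t x := rfl
  rw [e1, e2, h1, h2, zero_smul, zero_smul, zero_add, add_zero] at h
  refine ⟨(S.f t (S.e (t + 2)))⁻¹ * det3 (S.e t) x (S.e (t + 2)), ?_⟩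
  have h' : S.f t (S.e (t + 2)) • x = det3 (S.e t) x (S.e (t + 2)) • S.e (t + 1) := h
  rw [mul_smul, ← h', smul_smul, inv_mul_cancel₀ hk.ne', one_smul]

theorem inC_smul {t : ℤ} {c : ℝ} (hc : 0 ≤ c) {x : Fin 3 → ℝ} (h : S.InC t x) :
    S.InC t (c • x) := by
  obtain ⟨α, β, hα, hβ, rfl⟩ := h
  exact ⟨c * α, c * β, by positivity, by positivity, by module⟩

section forward

variable {S} {p q : ℤ} (F : S.Fwd p q)

include F

theorem Fwd.deeper {m : ℤ} (hm : q ≤ m)
    (hR : ∀ r, m ≤ r → r ≤ p + S.d → S.InR p q (S.e r)) (hC : ¬ S.Conv m (p + S.d)) :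
    ∃ p' q', S.MinBad p' q' ∧ q' ≤ p' + S.d - 1 ∧ (∀ x, S.InR p' q' x → S.InR p q x) ∧
      ¬ S.InR p' q' (S.e (p + 1)) := by
  have hl := F.len
  obtain ⟨p', q', h1, h2, h3⟩ := S.exists_minBad (p + S.d - m).toNat m (p + S.d) (by omega) hC
  have hl' := S.minBad_len h3
  have hq' : q' ≤ p' + S.d - 1 := by omega
  obtain ⟨w, hw, hull⟩ := S.hull h3 hq'
  have hwR : S.InR p q w := by
    rcases hw with hw | hw
    · exact S.inR_of_inC hw (hR p' h1 (by omega)) (hR (p' + 1) (by omega) (by omega))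
    · exact S.inR_of_inC hw (hR (q' - 1) (by omega) (by omega))
        (by rw [sub_add_cancel]; exact hR q' (by omega) h2)
  refine ⟨p', q', h3, hq', ?_, ?_⟩
  · intro x hx
    obtain ⟨t, h4, h5, c0, c1, c2, hc0, hc1, hc2, rfl⟩ := hull x hx
    exact S.inR_add (S.inR_add (S.inR_smul hc0 hwR)
      (S.inR_smul hc1 (hR t (by omega) (by omega))))
      (S.inR_smul hc2 (hR (t + 1) (by omega) (by omega)))
  · intro hx
    obtain ⟨t, h4, h5, c0, c1, c2, hc0, hc1, hc2, hx⟩ := hull _ hx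
    have r1 : S.InR p q (S.e t) := hR t (by omega) (by omega)
    have r2 : S.InR p q (S.e (t + 1)) := hR (t + 1) (by omega) (by omega)
    have key : ∀ t0, p ≤ t0 → t0 + 1 ≤ q → S.f t0 (S.e (p + 1)) = 0 →
        S.f t0 (c0 • w) = 0 ∧ S.f t0 (c1 • S.e t) = 0 ∧ S.f t0 (c2 • S.e (t + 1)) = 0 := by
      intro t0 h6 h7 h8
      rw [hx, f_add, f_add] at h8
      have a0 := S.inR_smul hc0 hwR t0 h6 h7
      have a1 := S.inR_smul hc1 r1 t0 h6 h7
      have a2 := S.inR_smul hc2 r2 t0 h6 h7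
      exact ⟨by linarith, by linarith, by linarith⟩
    obtain ⟨b0, b1, b2⟩ := key p (le_refl _) (by omega) (S.f_self' p)
    obtain ⟨b0', b1', b2'⟩ := key (p + 1) (by omega) (by omega) (S.f_self (p + 1))
    obtain ⟨μ0, hμ0⟩ := S.on_axis b0 b0'
    obtain ⟨μ1, hμ1⟩ := S.on_axis b1 b1'
    obtain ⟨μ2, hμ2⟩ := S.on_axis b2 b2'
    have far : ∀ s, m ≤ s → s ≤ p + S.d - 1 → ∀ v, S.InC s v → ∀ μ : ℝ,
        v = μ • S.e (p + 1) → μ ≤ 0 := by
      intro s hs hs' v hv μ hvμ
      by_contra hcon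
      have hμ : 0 < μ := not_le.1 hcon
      have h7 : S.InC (p + 1) v := by rw [hvμ]; exact S.inC_left (p + 1) hμ.le
      have h8 := S.disj (by omega) (by omega) h7 hv
      rw [h8] at hvμ
      rcases smul_eq_zero.1 hvμ.symm with h9 | h9
      · exact hμ.ne' h9
      · exact S.e_ne _ h9
    have n0 : μ0 ≤ 0 := by
      rcases hw with hw | hw
      · exact far p' h1 (by omega) _ (S.inC_smul hc0 hw) μ0 hμ0
      · exact far (q' - 1) (by omega) (by omega) _ (S.inC_smul hc0 hw) μ0 hμ0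
    have n1 : μ1 ≤ 0 := far t (by omega) (by omega) _ (S.inC_left t hc1) μ1 hμ1
    have n2 : μ2 ≤ 0 := far t (by omega) (by omega) _ (S.inC_right t hc2) μ2 hμ2
    have hsum : (1 - (μ0 + μ1 + μ2)) • S.e (p + 1) = 0 := by
      have : S.e (p + 1) = μ0 • S.e (p + 1) + μ1 • S.e (p + 1) + μ2 • S.e (p + 1) := by
        rw [← hμ0, ← hμ1, ← hμ2]; exact hx
      rw [sub_smul, one_smul, add_smul, add_smul, ← this, sub_self]
    rcases smul_eq_zero.1 hsum with h9 | h9
    · linarith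
    · exact S.e_ne _ h9

theorem Fwd.per_prev {k : ℤ} (hk : k = p + S.d - 1) : 0 < S.f p (S.e k) := by
  have h1 := S.f_prev p
  have e : S.e k = S.e (p - 1) := by
    rw [hk, show p + S.d - 1 = p - 1 + S.d by ring, S.per]
  rw [e]; exact h1

theorem Fwd.touch (hR : ∀ r, q ≤ r → r ≤ p + S.d → S.InR p q (S.e r)) :
    ¬ S.Conv q (p + S.d) := by
  intro hC
  have hl := F.len
  have hle := F.le
  have ha := S.a1_pos F.mb F.le
  have hA : S.f p (S.e q) = 0 :=
    le_antisymm F.hA (hR q (le_refl _) (by omega) p (le_refl _) (by omega))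
  have hq2 : q ≤ p + S.d - 2 := by
    by_contra hcon
    have := F.per_prev (k := q) (by omega)
    linarith
  have hz := S.z_eq p q
  unfold z at hz
  rw [hA, neg_zero, zero_smul, add_zero] at hz
  have gen : ∀ (a b : ℝ) (X Y W : Fin 3 → ℝ), det3 (a • X + (-b) • Y) W X
      = -(b * det3 X Y W) := by
    intro a b X Y W
    simp only [det3, Pi.add_apply, Pi.smul_apply, smul_eq_mul]; ring
  have hf : S.f p (S.e (q - 1)) * S.f q (S.e p)
      = -(S.f (q - 1) (S.e p) * S.f p (S.e (q + 1))) := by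
    have h1 : S.f p (S.e (q - 1)) * S.f q (S.e p)
        = det3 (S.f p (S.e (q - 1)) • S.e q) (S.e (q + 1)) (S.e p) := by
      have : S.f q (S.e p) = det3 (S.e q) (S.e (q + 1)) (S.e p) := rfl
      rw [this]
      simp only [det3, Pi.smul_apply, smul_eq_mul]; ring
    rw [h1, hz, gen]; rfl
  have h2 : 0 ≤ S.f p (S.e (q + 1)) := hR (q + 1) (by omega) (by omega) p (le_refl _) (by omega)
  have h3 := mul_nonneg F.hB.le h2
  have h4 : 0 < S.f q (S.e (p + S.d)) :=
    hC q (p + S.d) (le_refl _) (by omega) (by omega) (le_refl _) (by omega) (by omega)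
  rw [S.per] at h4
  have h5 := mul_pos ha h4
  linarith

end forward

theorem crossing {p q : ℤ} {u v : Fin 3 → ℝ} (hu : ¬ S.InR p q u) (hv : S.InR p q v) :
    ∃ (t0 : ℤ) (τ : ℝ), p ≤ t0 ∧ t0 + 1 ≤ q ∧ 0 < τ ∧ τ ≤ 1 ∧ S.f t0 u < 0 ∧
      S.InR p q ((1 - τ) • u + τ • v) ∧ S.f t0 ((1 - τ) • u + τ • v) = 0 := by
  classical
  unfold InR at hu
  push Not at hu
  obtain ⟨t1, h1, h2, h3⟩ := hu
  set A := (Finset.Icc p (q - 1)).filter (fun t => S.f t u < 0) with hAdef
  have hne : A.Nonempty := ⟨t1, by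
    rw [hAdef, Finset.mem_filter, Finset.mem_Icc]; exact ⟨⟨h1, by omega⟩, h3⟩⟩
  obtain ⟨t0, ht0, hmax⟩ := Finset.exists_max_image A
    (fun t => -S.f t u / (S.f t v - S.f t u)) hne
  rw [hAdef, Finset.mem_filter, Finset.mem_Icc] at ht0
  obtain ⟨⟨h4, h5⟩, h6⟩ := ht0
  have hv0 := hv t0 h4 (by omega)
  have hD : 0 < S.f t0 v - S.f t0 u := by linarith
  set τ := -S.f t0 u / (S.f t0 v - S.f t0 u) with hτ
  have hτD : τ * (S.f t0 v - S.f t0 u) = -S.f t0 u := by
    rw [hτ]; exact div_mul_cancel₀ _ hD.ne'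
  have hτ0 : 0 < τ := div_pos (by linarith) hD
  have hτ1 : τ ≤ 1 := by rw [hτ, div_le_one hD]; linarith
  have lin : ∀ t, S.f t ((1 - τ) • u + τ • v) = S.f t u + τ * (S.f t v - S.f t u) := by
    intro t; rw [f_add, f_smul, f_smul]; ring
  refine ⟨t0, τ, h4, by omega, hτ0, hτ1, h6, ?_, ?_⟩
  · intro t h7 h8
    have hvt := hv t h7 h8
    by_cases h9 : S.f t u < 0
    · have hmem : t ∈ A := by
        rw [hAdef, Finset.mem_filter, Finset.mem_Icc]; exact ⟨⟨h7, by omega⟩, h9⟩
      have h10 := hmax t hmem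
      have hDt : 0 < S.f t v - S.f t u := by linarith
      rw [div_le_iff₀ hDt] at h10
      rw [lin]; linarith
    · rw [f_add, f_smul, f_smul]
      have := mul_nonneg (by linarith : 0 ≤ 1 - τ) (not_lt.1 h9)
      have := mul_nonneg hτ0.le hvt
      linarith
  · rw [lin, hτD]; ring

section forward2

variable {S} {p q : ℤ} (F : S.Fwd p q)

include F

theorem Fwd.enter {k : ℤ} (hk : q ≤ k) (hk' : k ≤ p + S.d - 1) (hout : ¬ S.InR p q (S.e k))
    (hin : ∀ r, k + 1 ≤ r → r ≤ p + S.d → S.InR p q (S.e r)) : ¬ S.Conv (k + 1) (p + S.d) := by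
  intro hC
  have hl := F.len
  have hle := F.le
  have hlam := S.lam_pos F.mb F.le
  obtain ⟨t0, τ, h1, h2, hτ, hτ1, h3, h4, h5⟩ :=
    S.crossing hout (hin (k + 1) (le_refl _) (by omega))
  have hyC : S.InC k ((1 - τ) • S.e k + τ • S.e (k + 1)) :=
    ⟨1 - τ, τ, by linarith, hτ.le, rfl⟩
  have hy0 : (1 - τ) • S.e k + τ • S.e (k + 1) ≠ 0 := fun h0 => hτ.ne' (S.indep h0).2
  by_cases hmid : p + 1 ≤ t0 ∧ t0 + 1 ≤ q - 1
  · exact hy0 (S.disj (by omega) (by omega) (F.facet_mid hmid.1 hmid.2 h4 h5) hyC)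
  by_cases hlast : t0 = q - 1
  · subst hlast
    have hkq : k ≠ q := by
      rintro rfl
      have := S.f_self' (k - 1)
      rw [sub_add_cancel] at this; linarith
    exact hy0 (S.disj (by omega) (by omega) (F.facet_last h4 h5) hyC)
  have hfirst : t0 = p := by omega
  rw [hfirst] at h3 h5
  have hk2 : k ≤ p + S.d - 2 := by
    by_contra hcon
    have := F.per_prev (k := k) (by omega)
    linarith
  obtain ⟨c0, c1, hc0, hc1, hyz⟩ := F.facet_first h4 h5
  rw [z_eq] at hyz
  have hyz' : (1 - τ) • S.e k + τ • S.e (k + 1)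
      = (c0 * S.f (q - 1) (S.e (p + 1))) • S.e p
        + (c1 - c0 * S.f (q - 1) (S.e p)) • S.e (p + 1) := by
    rw [hyz]; module
  have hb : c1 - c0 * S.f (q - 1) (S.e p) < 0 := by
    by_contra hcon
    have h6 : S.InC p ((1 - τ) • S.e k + τ • S.e (k + 1)) :=
      ⟨_, _, mul_nonneg hc0 hlam.le, not_lt.1 hcon, hyz'⟩
    exact hy0 (S.disj (by omega) (by omega) h6 hyC)
  have hfk : S.f k (S.e p) < 0 := by
    have g1 : ∀ (X Y P : Fin 3 → ℝ) (s t : ℝ),
        det3 X (s • X + t • Y) P = t * det3 X Y P := by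
      intro X Y P s t
      simp only [det3, Pi.add_apply, Pi.smul_apply, smul_eq_mul]; ring
    have g2 : ∀ (X P Q : Fin 3 → ℝ) (a b : ℝ),
        det3 X (a • P + b • Q) P = -(b * det3 P Q X) := by
      intro X P Q a b
      simp only [det3, Pi.add_apply, Pi.smul_apply, smul_eq_mul]; ring
    have h6 : τ * S.f k (S.e p)
        = -((c1 - c0 * S.f (q - 1) (S.e p)) * S.f p (S.e k)) := by
      have e1 : S.f k (S.e p) = det3 (S.e k) (S.e (k + 1)) (S.e p) := rfl
      have e2 : S.f p (S.e k) = det3 (S.e p) (S.e (p + 1)) (S.e k) := rfl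
      rw [e1, e2, ← g1 (S.e k) (S.e (k + 1)) (S.e p) (1 - τ) τ, hyz', g2]
    have h7 := mul_pos_of_neg_of_neg hb h3
    by_contra hcon
    have h8 := mul_nonneg hτ.le (not_lt.1 hcon)
    linarith
  obtain ⟨r, hr1, hr2, hr3, hr4⟩ := int_switch (P := fun r => 0 < S.f k (S.e r))
    (a := k + 2) (b := p + S.d) (by omega) (S.f_next k) (by
      simp only [S.per]; exact not_lt.2 hfk.le)
  have hz := S.z_eq k (r + 1)
  unfold z at hz
  rw [show r + 1 - 1 = r by ring] at hz
  have g3 : 0 < S.f r (S.e (k + 1)) :=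
    hC r (k + 1) (by omega) hr2 (le_refl _) (by omega) (by omega) (by omega)
  have hwC : S.InC r (S.f k (S.e r) • S.e (r + 1) + (-S.f k (S.e (r + 1))) • S.e r) :=
    ⟨-S.f k (S.e (r + 1)), S.f k (S.e r), by linarith, hr3.le, add_comm _ _⟩
  by_cases g4 : S.f r (S.e k) ≤ 0
  · have hwC' : S.InC k (S.f k (S.e r) • S.e (r + 1) + (-S.f k (S.e (r + 1))) • S.e r) :=
      ⟨_, _, g3.le, by linarith, hz⟩
    have h0 := S.disj (by omega) (by omega) hwC' hwC
    rw [hz] at h0
    exact g3.ne' (S.indep h0).1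
  · have g4' : 0 < S.f r (S.e k) := not_le.1 g4
    apply hout
    have hW : S.InR p q (S.f k (S.e r) • S.e (r + 1) + (-S.f k (S.e (r + 1))) • S.e r) :=
      S.inR_of_inC hwC (hin r (by omega) (by omega)) (hin (r + 1) (by omega) hr2)
    have he : S.e k = (S.f r (S.e (k + 1)))⁻¹ •
        ((S.f k (S.e r) • S.e (r + 1) + (-S.f k (S.e (r + 1))) • S.e r)
          + S.f r (S.e k) • S.e (k + 1)) := by
      rw [hz]
      have : S.f r (S.e (k + 1)) • S.e k + -S.f r (S.e k) • S.e (k + 1)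
          + S.f r (S.e k) • S.e (k + 1) = S.f r (S.e (k + 1)) • S.e k := by module
      rw [this, smul_smul, inv_mul_cancel₀ g3.ne', one_smul]
    rw [he]
    exact S.inR_smul (inv_nonneg.2 g3.le) (S.inR_add hW
      (S.inR_smul g4'.le (hin (k + 1) (le_refl _) (by omega))))

theorem Fwd.next : ∃ p' q', S.MinBad p' q' ∧ q' ≤ p' + S.d - 1 ∧
    (∀ x, S.InR p' q' x → S.InR p q x) ∧ ¬ S.InR p' q' (S.e (p + 1)) := by
  have hl := F.len
  have hle := F.le
  by_cases hall : ∀ r, q ≤ r → r ≤ p + S.d → S.InR p q (S.e r)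
  · exact F.deeper (le_refl _) hall (F.touch hall)
  · push Not at hall
    obtain ⟨r0, h1, h2, h3⟩ := hall
    obtain ⟨k, hk1, hk2, hk3, hk4⟩ := int_switch
      (P := fun r => ∃ s, r ≤ s ∧ s ≤ p + S.d ∧ ¬ S.InR p q (S.e s)) (a := q) (b := p + S.d)
      (by omega) ⟨r0, h1, h2, h3⟩ (by
        rintro ⟨s, hs1, hs2, hs3⟩
        apply hs3
        have : s = p + S.d := by omega
        rw [this, S.per]
        exact F.vert (le_refl _) (by omega))
    have hin : ∀ r, k + 1 ≤ r → r ≤ p + S.d → S.InR p q (S.e r) := by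
      intro r h4 h5
      by_contra hcon
      exact hk4 ⟨r, h4, h5, hcon⟩
    have hout : ¬ S.InR p q (S.e k) := by
      obtain ⟨s, hs1, hs2, hs3⟩ := hk3
      by_cases hs : s = k
      · rwa [hs] at hs3
      · exact absurd (hin s (by omega) hs2) hs3
    exact F.deeper (by omega) hin (F.enter hk1 (by omega) hout hin)

end forward2

theorem mirror_minBad_iff (p q : ℤ) : S.mirror.MinBad (-q) (-p) ↔ S.MinBad p q := by
  refine ⟨fun h => ⟨fun hc => h.1 ((S.mirror_conv p q).2 hc), ?_, ?_⟩, S.mirror_minBad⟩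
  · have := h.2.2
    rw [show -p - 1 = -(p + 1) by ring] at this
    exact (S.mirror_conv (p + 1) q).1 this
  · have := h.2.1
    rw [show -q + 1 = -(q - 1) by ring] at this
    exact (S.mirror_conv p (q - 1)).1 this

theorem step {p q : ℤ} (h : S.MinBad p q) (hq : q ≤ p + S.d - 1) :
    ∃ p' q' s, S.MinBad p' q' ∧ q' ≤ p' + S.d - 1 ∧ (∀ x, S.InR p' q' x → S.InR p q x) ∧
      S.InR p q (S.e s) ∧ ¬ S.InR p' q' (S.e s) := by
  have hl := S.minBad_len h
  rcases S.cases h hq with F | F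
  · obtain ⟨p', q', h1, h2, h3, h4⟩ := F.next
    exact ⟨p', q', p + 1, h1, h2, h3, F.vert (by omega) (by omega), h4⟩
  · obtain ⟨p', q', h1, h2, h3, h4⟩ := F.next
    rw [mirror_d] at h2
    have e1 : p' = -(-p') := (neg_neg _).symm
    have e2 : q' = -(-q') := (neg_neg _).symm
    rw [e1, e2] at h1 h3 h4
    refine ⟨-q', -p', q - 1, (S.mirror_minBad_iff _ _).1 h1, by omega, ?_, ?_, ?_⟩
    · intro x hx
      have h5 := h3 (-x) ((S.mirror_inR _ _ _).2 (by rwa [neg_neg]))
      have h6 := (S.mirror_inR p q (-x)).1 h5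
      rwa [neg_neg] at h6
    · have h5 := F.vert (r := -q + 1) (by omega) (by omega)
      have h6 := (S.mirror_inR p q _).1 h5
      rw [mirror_e, neg_neg, show -(-q + 1) = q - 1 by ring] at h6
      exact h6
    · intro h5
      apply h4
      apply (S.mirror_inR _ _ _).2
      rw [mirror_e, neg_neg, show -(-q + 1) = q - 1 by ring]
      exact h5

theorem per_mul (t n : ℤ) : S.e (t + n * S.d) = S.e t := by
  induction n using Int.induction_on with
  | zero => simp
  | succ n ih =>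
    rw [show t + ((n : ℤ) + 1) * S.d = t + n * S.d + S.d by ring, S.per, ih]
  | pred n ih =>
    rw [show t + (-(n : ℤ) - 1) * S.d = t + -(n : ℤ) * S.d - S.d by ring, S.per', ih]

theorem no_minBad_aux (n : ℕ) : ∀ p q : ℤ, S.MinBad p q → q ≤ p + S.d - 1 →
    (open Classical in ((Finset.Ico 0 S.d).filter (fun i => S.InR p q (S.e i))).card) ≤ n →
    False := by
  classical
  induction n with
  | zero =>
    intro p q h hq hn
    have hl := S.minBad_len h
    obtain ⟨p', q', s, h1, h2, h3, h4, h5⟩ := S.step h hq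
    have hd : 0 < S.d := by omega
    have hs : S.e (s % S.d) = S.e s := by
      have := S.per_mul (s % S.d) (s / S.d)
      rw [show s % S.d + s / S.d * S.d = s by
        rw [mul_comm]; exact Int.emod_add_mul_ediv s S.d] at this
      exact this.symm
    have hmem : s % S.d ∈ (Finset.Ico 0 S.d).filter (fun i => S.InR p q (S.e i)) := by
      rw [Finset.mem_filter, Finset.mem_Ico, hs]
      exact ⟨⟨Int.emod_nonneg _ hd.ne', Int.emod_lt_of_pos _ hd⟩, h4⟩
    have := Finset.card_pos.2 ⟨_, hmem⟩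
    omega
  | succ n ih =>
    intro p q h hq hn
    have hl := S.minBad_len h
    obtain ⟨p', q', s, h1, h2, h3, h4, h5⟩ := S.step h hq
    have hd : 0 < S.d := by omega
    have hs : S.e (s % S.d) = S.e s := by
      have := S.per_mul (s % S.d) (s / S.d)
      rw [show s % S.d + s / S.d * S.d = s by
        rw [mul_comm]; exact Int.emod_add_mul_ediv s S.d] at this
      exact this.symm
    apply ih p' q' h1 h2
    have hlt : ((Finset.Ico 0 S.d).filter (fun i => S.InR p' q' (S.e i))).card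
        < ((Finset.Ico 0 S.d).filter (fun i => S.InR p q (S.e i))).card := by
      apply Finset.card_lt_card
      rw [Finset.ssubset_iff_of_subset]
      · refine ⟨s % S.d, ?_, ?_⟩
        · rw [Finset.mem_filter, Finset.mem_Ico, hs]
          exact ⟨⟨Int.emod_nonneg _ hd.ne', Int.emod_lt_of_pos _ hd⟩, h4⟩
        · rw [Finset.mem_filter, hs]
          exact fun hh => h5 hh.2
      · intro i hi
        rw [Finset.mem_filter] at hi ⊢
        exact ⟨hi.1, h3 _ hi.2⟩
    omega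

theorem conv_all {p q : ℤ} (hq : q ≤ p + S.d - 1) : S.Conv p q := by
  by_contra hcon
  obtain ⟨p', q', h1, h2, h3⟩ := S.exists_minBad (q - p).toNat p q (by omega) hcon
  exact S.no_minBad_aux _ p' q' h3 (by omega) (le_refl _)

/-- a plane through the origin crosses the polygon downwards at most once -/
theorem cross_once {a b : ℤ} (h1 : a + 2 ≤ b) (h2 : b + 2 ≤ a + S.d) (u : Fin 3 → ℝ)
    (ha : 0 < dot3 u (S.e a)) (ha' : dot3 u (S.e (a + 1)) < 0)
    (hb : 0 < dot3 u (S.e b)) (hb' : dot3 u (S.e (b + 1)) < 0) : False := by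
  have hC : S.Conv a (b + 1) := S.conv_all (by omega)
  have c1 := hC a b (le_refl _) (by omega) (by omega) (by omega) (by omega) (by omega)
  have c2 := hC a (b + 1) (le_refl _) (by omega) (by omega) (le_refl _) (by omega) (by omega)
  have c3 := hC b (a + 1) (by omega) (le_refl _) (by omega) (by omega) (by omega) (by omega)
  have c4 := hC b a (by omega) (le_refl _) (le_refl _) (by omega) (by omega) (by omega)
  have h := fourv (S.e a) (S.e (a + 1)) (S.e b) (S.e (b + 1))
  have e1 : det3 (S.e (b + 1)) (S.e (a + 1)) (S.e b) = S.f b (S.e (a + 1)) := by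
    simp only [f, det3]; ring
  have e2 : det3 (S.e a) (S.e (b + 1)) (S.e b) = -S.f b (S.e a) := by
    simp only [f, det3]; ring
  have e3 : det3 (S.e a) (S.e (a + 1)) (S.e b) = S.f a (S.e b) := rfl
  have e4 : det3 (S.e a) (S.e (a + 1)) (S.e (b + 1)) = S.f a (S.e (b + 1)) := rfl
  rw [e1, e2, e3, e4] at h
  have h' := congrArg (dot3 u) h
  have lin : ∀ (x y z : ℝ) (X Y Z : Fin 3 → ℝ), dot3 u (x • X + y • Y + z • Z)
      = x * dot3 u X + y * dot3 u Y + z * dot3 u Z := by
    intro x y z X Y Z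
    simp only [dot3, Pi.add_apply, Pi.smul_apply, smul_eq_mul]; ring
  have lin1 : ∀ (x : ℝ) (X : Fin 3 → ℝ), dot3 u (x • X) = x * dot3 u X := by
    intro x X
    simp only [dot3, Pi.smul_apply, smul_eq_mul]; ring
  rw [lin, lin1] at h'
  have m1 := mul_neg_of_pos_of_neg c1 hb'
  have m2 := mul_pos c3 ha
  have m3 := mul_neg_of_pos_of_neg c4 ha'
  have m4 := mul_pos c2 hb
  linarith

end LSeq

end Pool.Agent.FBK
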