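import Mathlib

set_option autoImplicit false

/-! Scalar products and determinants in three-space. -/

namespace Pool.Agent.FBK

/-- scalar product of two vectors of three-space -/
def dot3 (u v : Fin 3 → ℝ) : ℝ := u 0 * v 0 + u 1 * v 1 + u 2 * v 2

/-- determinant of three vectors of three-space -/
def det3 (u v w : Fin 3 → ℝ) : ℝ :=
  u 0 * (v 1 * w 2 - v 2 * w 1) - u 1 * (v 0 * w 2 - v 2 * w 0)
    + u 2 * (v 0 * w 1 - v 1 * w 0)

end Pool.Agent.FBK
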