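import Pool.Agent.FBK.Geo
import Pool.Agent.FBK.TurnD

set_option autoImplicit false

/-! Sign changes at the vertices. -/

namespace Pool.Agent.FBK

open Finset Filter Topology

/-! ### the vertices -/

section vertices

variable {D : Type} [Fintype D]

open Classical in
/-- the darts of a cycle -/
noncomputable def fib (p : Equiv.Perm D) (v : Cyc p) : Finset D :=
  univ.filter (fun d => toCyc p d = v)

theorem mem_fib (p : Equiv.Perm D) (v : Cyc p) (d : D) : d ∈ fib p v ↔ toCyc p d = v := by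
  classical
  simp [fib]

theorem card_fib (p : Equiv.Perm D) (v : Cyc p) : (fib p v).card = len p v := by
  classical
  unfold len fib
  rw [Nat.card_eq_fintype_card, Fintype.card_subtype]

theorem pow_len (p : Equiv.Perm D) (d : D) : (p ^ (len p (toCyc p d))) d = d := by
  classical
  by_cases h : p d = d
  · exact Equiv.Perm.pow_apply_eq_self_of_apply_eq_self h _
  · have h1 : len p (toCyc p d) = (p.cycleOf d).support.card := by
      rw [← card_fib]
      congr 1
      ext d'
      rw [mem_fib, Equiv.Perm.mem_support_cycleOf_iff' h, toCyc_eq]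
      exact ⟨fun h => h.symm, fun h => h.symm⟩
    rw [h1, ← (Equiv.Perm.isCycle_cycleOf p h).orderOf, ← Equiv.Perm.cycleOf_pow_apply_self,
      pow_orderOf_eq_one, Equiv.Perm.one_apply]

theorem const_on {p : Equiv.Perm D} {v : Cyc p} {f : D → Bool}
    (h : ∀ d, toCyc p d = v → f (p d) = f d) {d d' : D} (hd : toCyc p d = v)
    (hd' : toCyc p d' = v) : f d = f d' := by
  have hs : p.SameCycle d d' := (toCyc_eq p d d').1 (hd.trans hd'.symm)
  obtain ⟨n, hn⟩ := hs.exists_nat_pow_eq
  have key : ∀ n : ℕ, toCyc p ((p ^ n) d) = v ∧ f ((p ^ n) d) = f d := by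
    intro n
    induction n with
    | zero => simpa using hd
    | succ n ih =>
      rw [pow_succ', Equiv.Perm.mul_apply]
      exact ⟨(toCyc_apply p _).trans ih.1, (h _ ih.1).trans ih.2⟩
  have := (key n).2; rw [hn] at this; exact this.symm

theorem len_pos (p : Equiv.Perm D) (v : Cyc p) : 0 < len p v := by
  obtain ⟨d, rfl⟩ := Quotient.exists_rep v
  rw [← card_fib]
  exact Finset.card_pos.2 ⟨d, (mem_fib p _ d).2 rfl⟩

variable {s a : Equiv.Perm D} (ha : ∀ d, a (a d) = d) (R : Immersion s a)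

/-- the colour of an edge: whether it is convex -/
noncomputable def col {D : Type} {s a : Equiv.Perm D} (R : Immersion s a) (d : D) : Bool :=
  @decide (0 < kap R d) (Classical.dec _)

theorem col_true (d : D) : col R d = true ↔ 0 < kap R d := by
  unfold col; exact @decide_eq_true_iff _ (Classical.dec _)

include ha

theorem col_rev (d : D) : col R (a d) = col R d := by
  rw [Bool.eq_iff_iff, col_true, col_true]; exact kap_rev ha R d

theorem col_false (d : D) : col R d = false ↔ kap R d < 0 := by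
  rw [← Bool.not_eq_true, col_true]
  constructor
  · intro h; exact lt_of_le_of_ne (not_lt.1 h) (kap_ne ha R d)
  · intro h; exact not_lt.2 h.le

theorem col_three (d : D) (h : len s (toCyc s d) = 3) : col R (s d) = col R d := by
  have h1 := pow_len s d
  rw [h] at h1
  have h2 : s (s (s d)) = d := by
    simpa [pow_succ, Equiv.Perm.mul_apply] using h1
  unfold col
  rw [kap_three ha R h2]

include R in
theorem len_ge (v : Cyc s) : 3 ≤ len s v := by
  obtain ⟨d, rfl⟩ := Quotient.exists_rep v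
  change 3 ≤ len s (toCyc s d)
  have h0 := len_pos s (toCyc s d)
  have h1 := pow_len s d
  by_contra hcon
  have : len s (toCyc s d) = 1 ∨ len s (toCyc s d) = 2 := by omega
  rcases this with h | h
  · rw [h, pow_one] at h1
    have h2 : s⁻¹ d = d := by rw [Equiv.Perm.inv_eq_iff_eq]; exact h1.symm
    have := corner ha R d
    rw [h2] at this
    have e : det3 (R.nrm d) (R.e d) (R.e d) = 0 := by simp only [det3]; ring
    rw [e] at this; exact lt_irrefl _ this
  · rw [h] at h1
    have h3 : s (s d) = d := by simpa [pow_succ, Equiv.Perm.mul_apply] using h1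
    have h2 : s⁻¹ d = s d := by rw [Equiv.Perm.inv_eq_iff_eq]; exact h3.symm
    have := kap_ne ha R d
    apply this
    unfold kap; rw [h2]; simp only [det3]; ring

/-- changes of the sign of `ψ` around a vertex -/
noncomputable def upw {D : Type} {s a : Equiv.Perm D} (R : Immersion s a)
    (ψ : Fin 3 → ℝ) (d : D) : Bool :=
  @decide (0 < dot3 ψ (R.e d)) (Classical.dec _)

omit ha [Fintype D] in
theorem upw_true (ψ : Fin 3 → ℝ) (d : D) : upw R ψ d = true ↔ 0 < dot3 ψ (R.e d) := by
  unfold upw; exact @decide_eq_true_iff _ (Classical.dec _)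

omit ha [Fintype D] in
theorem upw_false {ψ : Fin 3 → ℝ} (hψ : ∀ d, dot3 ψ (R.e d) ≠ 0) (d : D) :
    upw R ψ d = false ↔ dot3 ψ (R.e d) < 0 := by
  rw [← Bool.not_eq_true, upw_true]
  constructor
  · intro h; exact lt_of_le_of_ne (not_lt.1 h) (hψ d)
  · intro h; exact not_lt.2 h.le

open Classical in
/-- number of sign changes around a vertex -/
noncomputable def chg (ψ : Fin 3 → ℝ) (R : Immersion s a) (v : Cyc s) : ℕ :=
  ((fib s v).filter (fun d => upw R ψ d ≠ upw R ψ (s d))).card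

omit ha in
theorem chg_even (ψ : Fin 3 → ℝ) (v : Cyc s) : Even (chg ψ R v) := by
  classical
  unfold chg
  rw [alt s (fib s v) (fun d => by rw [mem_fib, mem_fib, toCyc_apply]) (upw R ψ)]
  exact even_two_mul _

omit ha in
theorem chg_le (ψ : Fin 3 → ℝ) (v : Cyc s) : chg ψ R v ≤ 2 * (len s v / 2) := by
  classical
  have h1 : chg ψ R v ≤ len s v := by
    rw [← card_fib]; exact Finset.card_filter_le _ _
  obtain ⟨k, hk⟩ := chg_even R ψ v
  omega

omit ha in
theorem chg_pair (ψ : Fin 3 → ℝ) (v : Cyc s) (hv : Even (len s v))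
    (h : ∃ u, toCyc s u = v ∧ (0 < dot3 ψ (R.e u) ↔ 0 < dot3 ψ (R.e (s u)))) :
    chg ψ R v + 2 ≤ len s v := by
  classical
  obtain ⟨u, hu, hu'⟩ := h
  have h1 : chg ψ R v < len s v := by
    rw [← card_fib]
    apply Finset.card_lt_card
    rw [Finset.ssubset_iff_of_subset (Finset.filter_subset _ _)]
    refine ⟨u, (mem_fib s v u).2 hu, ?_⟩
    rw [mem_filter]
    rintro ⟨_, h2⟩
    apply h2
    rw [Bool.eq_iff_iff, upw_true, upw_true]; exact hu'
  obtain ⟨k, hk⟩ := chg_even R ψ v
  obtain ⟨l, hl⟩ := hv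
  omega

omit ha in
theorem chg_two (ψ : Fin 3 → ℝ) (v : Cyc s) (hv : ¬ Even (len s v)) {u u' : D} (hne : u ≠ u')
    (hu : toCyc s u = v) (hu' : toCyc s u' = v)
    (h : 0 < dot3 ψ (R.e u) ↔ 0 < dot3 ψ (R.e (s u)))
    (h' : 0 < dot3 ψ (R.e u') ↔ 0 < dot3 ψ (R.e (s u'))) :
    chg ψ R v + 2 ≤ 2 * (len s v / 2) := by
  classical
  have h1 : chg ψ R v + 2 ≤ len s v := by
    have hsub : (fib s v).filter (fun d => upw R ψ d ≠ upw R ψ (s d))
        ⊆ ((fib s v).erase u).erase u' := by
      intro d hd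
      rw [mem_filter] at hd
      rw [mem_erase, mem_erase]
      refine ⟨?_, ?_, hd.1⟩
      · rintro rfl
        apply hd.2
        rw [Bool.eq_iff_iff, upw_true, upw_true]; exact h'
      · rintro rfl
        apply hd.2
        rw [Bool.eq_iff_iff, upw_true, upw_true]; exact h
    have h2 := Finset.card_le_card hsub
    rw [Finset.card_erase_of_mem (mem_erase.2 ⟨hne.symm, (mem_fib s v u').2 hu'⟩),
      Finset.card_erase_of_mem ((mem_fib s v u).2 hu), card_fib] at h2
    have h3 : 2 ≤ len s v := by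
      rw [← card_fib]
      exact Finset.one_lt_card.2 ⟨u, (mem_fib s v u).2 hu, u', (mem_fib s v u').2 hu', hne⟩
    unfold chg
    omega
  obtain ⟨k, hk⟩ := chg_even R ψ v
  have hodd : Odd (len s v) := Nat.not_even_iff_odd.1 hv
  obtain ⟨l, hl⟩ := hodd
  omega

omit ha [Fintype D] in
theorem pos_zpow (R : Immersion s a) (d : D) (m : ℤ) : R.pos ((s ^ m) d) = R.pos d := by
  induction m using Int.induction_on with
  | zero => simp
  | succ n ih => rw [add_comm, zpow_add, zpow_one, Equiv.Perm.mul_apply, R.pos_vertex, ih]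
  | pred n ih =>
    rw [← ih, show (-(n : ℤ) - 1) = -1 + -(n : ℤ) by ring, zpow_add, Equiv.Perm.mul_apply,
      zpow_neg, zpow_one, pos_prev R]

omit ha [Fintype D] in
theorem emb_dart (R : Immersion s a) {d d' : D} (m : ℤ) (hm : (s ^ m) d = d') (h1 : d' ≠ d)
    (h2 : d' ≠ s d) (h3 : s d' ≠ d) {α β γ δ : ℝ} (hα : 0 ≤ α) (hβ : 0 ≤ β) (hγ : 0 ≤ γ)
    (hδ : 0 ≤ δ) (h : α • R.e d + β • R.e (s d) = γ • R.e d' + δ • R.e (s d')) :
    α = 0 ∧ β = 0 := by
  apply R.embedded d d' ⟨m, hm⟩ h1 h2 h3 α β γ δ hα hβ hγ hδ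
  have e1 : R.pos d' = R.pos d := by rw [← hm, pos_zpow]
  simp only [Immersion.e] at h
  rw [R.pos_vertex, R.pos_vertex, e1] at h
  exact h

omit ha in
theorem zpow_len (d : D) (t : ℤ) :
    (s ^ (t + (len s (toCyc s d) : ℤ))) d = (s ^ t) d := by
  rw [zpow_add, Equiv.Perm.mul_apply, zpow_natCast, pow_len]

omit ha in
theorem zpow_ne (d : D) {k : ℤ} (h0 : 0 < k) (hk : k < (len s (toCyc s d) : ℤ)) :
    (s ^ k) d ≠ d := by
  classical
  intro h
  obtain ⟨n, rfl⟩ := Int.eq_ofNat_of_zero_le h0.le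
  have hsub : fib s (toCyc s d) ⊆ (Finset.range n).image (fun i => (s ^ i) d) := by
    intro d' hd'
    rw [mem_fib] at hd'
    obtain ⟨m, hm⟩ := (toCyc_eq s d d').1 hd'.symm
    rw [mem_image]
    have hnn := Int.emod_nonneg m h0.ne'
    refine ⟨(m % (n : ℤ)).toNat, ?_, ?_⟩
    · rw [mem_range]
      have := Int.emod_lt_of_pos m h0
      omega
    · rw [← zpow_natCast, Int.toNat_of_nonneg hnn, ← hm]
      conv_rhs => rw [← Int.emod_add_mul_ediv m n, zpow_add, Equiv.Perm.mul_apply, zpow_mul]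
      rw [Equiv.Perm.zpow_apply_eq_self_of_apply_eq_self h]
  have h1 := Finset.card_le_card hsub
  rw [card_fib] at h1
  have h2 := Finset.card_image_le (s := Finset.range n) (f := fun i => (s ^ i) d)
  rw [Finset.card_range] at h2
  omega

/-- the edge vectors at a vertex whose edges have one colour -/
noncomputable def ringSeq (R : Immersion s a) (σ : ℝ) (hσ : σ * σ = 1) (d0 : D)
    (hk : ∀ d, toCyc s d = toCyc s d0 → 0 < σ * kap R d) : LSeq where
  e t := σ • R.e ((s ^ t) d0)
  d := len s (toCyc s d0)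
  per t := by rw [zpow_len]
  turn t := by
    have hd : toCyc s ((s ^ t) d0) = toCyc s d0 := by
      rw [toCyc_eq]; exact Equiv.Perm.SameCycle.symm ⟨t, rfl⟩
    have h := hk _ hd
    have e1 : (s ^ (t - 1)) d0 = s⁻¹ ((s ^ t) d0) := by
      rw [show t - 1 = -1 + t by ring, zpow_add, Equiv.Perm.mul_apply, zpow_neg, zpow_one]
    have e2 : (s ^ (t + 1)) d0 = s ((s ^ t) d0) := by
      rw [show t + 1 = 1 + t by ring, zpow_add, Equiv.Perm.mul_apply, zpow_one]
    rw [e1, e2]
    have : det3 (σ • R.e (s⁻¹ ((s ^ t) d0))) (σ • R.e ((s ^ t) d0)) (σ • R.e (s ((s ^ t) d0)))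
        = (σ * σ) * (σ * kap R ((s ^ t) d0)) := by
      unfold kap
      simp only [det3, Pi.smul_apply, smul_eq_mul]; ring
    rw [this, hσ, one_mul]; exact h
  emb t t' h1 h2 α β γ δ hα hβ hγ hδ h := by
    have e2 : ∀ t : ℤ, (s ^ (t + 1)) d0 = s ((s ^ t) d0) := by
      intro t
      rw [show t + 1 = 1 + t by ring, zpow_add, Equiv.Perm.mul_apply, zpow_one]
    have ne : ∀ u u' : ℤ, u < u' → u' < u + (len s (toCyc s d0) : ℤ) →
        (s ^ u') d0 ≠ (s ^ u) d0 := by
      intro u u' h3 h4 h5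
      rw [show u' = u + (u' - u) by ring, zpow_add, Equiv.Perm.mul_apply] at h5
      exact zpow_ne d0 (by omega) (by omega) ((s ^ u).injective h5)
    rw [e2, e2] at h
    have h' : α • R.e ((s ^ t) d0) + β • R.e (s ((s ^ t) d0))
        = γ • R.e ((s ^ t') d0) + δ • R.e (s ((s ^ t') d0)) := by
      have h6 := congrArg (fun x => σ • x) h
      simp only [smul_add, smul_smul] at h6
      have c : ∀ x : ℝ, σ * (x * σ) = x := fun x => by
        rw [show σ * (x * σ) = x * (σ * σ) by ring, hσ, mul_one]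
      rw [c, c, c, c] at h6
      exact h6
    refine emb_dart R (t' - t) ?_ (ne t t' (by omega) (by omega)) ?_ ?_ hα hβ hγ hδ h'
    · rw [← Equiv.Perm.mul_apply, ← zpow_add]; congr 2; ring
    · rw [← e2]; exact ne (t + 1) t' (by omega) (by omega)
    · rw [← e2]; exact ne t (t' + 1) (by omega) (by omega)

/-- a vertex whose edges have one colour is no saddle -/
theorem chg_mono {ψ : Fin 3 → ℝ} (hψ : ∀ d, dot3 ψ (R.e d) ≠ 0) (v : Cyc s)
    (hc : ∀ d d', toCyc s d = v → toCyc s d' = v → col R d = col R d') :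
    chg ψ R v ≤ 2 := by
  classical
  unfold chg
  rw [alt s (fib s v) (fun d => by rw [mem_fib, mem_fib, toCyc_apply]) (upw R ψ)]
  by_contra hcon
  have h1 : 1 < ((fib s v).filter (fun d => upw R ψ d = true ∧ upw R ψ (s d) = false)).card := by
    omega
  obtain ⟨d1, hd1, d2, hd2, hne⟩ := Finset.one_lt_card.1 h1
  rw [mem_filter, mem_fib, upw_true, upw_false R hψ] at hd1 hd2
  obtain ⟨hv1, hp1, hn1⟩ := hd1
  obtain ⟨hv2, hp2, hn2⟩ := hd2
  obtain ⟨σ, hσ, hk⟩ : ∃ σ : ℝ, σ * σ = 1 ∧ ∀ d, toCyc s d = toCyc s d1 → 0 < σ * kap R d := by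
    cases hcd : col R d1 with
    | true =>
      refine ⟨1, by norm_num, fun d hd => ?_⟩
      have := hc d d1 (hd.trans hv1) hv1
      rw [hcd, col_true] at this
      rw [one_mul]; exact this
    | false =>
      refine ⟨-1, by norm_num, fun d hd => ?_⟩
      have := hc d d1 (hd.trans hv1) hv1
      rw [hcd, col_false ha] at this
      linarith
  have h0 := len_pos s (toCyc s d1)
  obtain ⟨m, hm⟩ := (toCyc_eq s d1 d2).1 (hv1.trans hv2.symm)
  set n : ℤ := (len s (toCyc s d1) : ℤ) with hn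
  have hn0 : 0 < n := by omega
  have hper : (s ^ n) d1 = d1 := by rw [hn, zpow_natCast, pow_len]
  have hm' : (s ^ (m % n)) d1 = d2 := by
    rw [← hm]
    conv_rhs => rw [← Int.emod_add_mul_ediv m n, zpow_add, Equiv.Perm.mul_apply, zpow_mul]
    rw [Equiv.Perm.zpow_apply_eq_self_of_apply_eq_self hper]
  have hk0 := Int.emod_nonneg m hn0.ne'
  have hk1 := Int.emod_lt_of_pos m hn0
  set k := m % n with hkdef
  have e2 : ∀ t : ℤ, (s ^ (t + 1)) d1 = s ((s ^ t) d1) := by
    intro t
    rw [show t + 1 = 1 + t by ring, zpow_add, Equiv.Perm.mul_apply, zpow_one]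
  have k0 : k ≠ 0 := by
    intro h; rw [h, zpow_zero, Equiv.Perm.one_apply] at hm'; exact hne hm'
  have k1 : k ≠ 1 := by
    intro h; rw [h, zpow_one] at hm'
    rw [hm'] at hn1; exact lt_asymm hn1 hp2
  have k2 : k ≠ n - 1 := by
    intro h
    have : s d2 = d1 := by
      rw [← hm', ← e2, h, sub_add_cancel]; exact hper
    rw [this] at hn2; exact lt_asymm hn2 hp1
  have hs2 : ∀ (x : Fin 3 → ℝ), dot3 (σ • ψ) (σ • x) = dot3 ψ x := by
    intro x
    have : dot3 (σ • ψ) (σ • x) = (σ * σ) * dot3 ψ x := by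
      simp only [dot3, Pi.smul_apply, smul_eq_mul]; ring
    rw [this, hσ, one_mul]
  refine (ringSeq R σ hσ d1 hk).cross_once (a := 0) (b := k) (by omega) ?_ (σ • ψ) ?_ ?_ ?_ ?_
  · change k + 2 ≤ 0 + n
    omega
  · change 0 < dot3 (σ • ψ) (σ • R.e ((s ^ (0 : ℤ)) d1))
    rw [hs2]; simpa using hp1
  · change dot3 (σ • ψ) (σ • R.e ((s ^ (0 + 1 : ℤ)) d1)) < 0
    rw [hs2]; simpa using hn1
  · change 0 < dot3 (σ • ψ) (σ • R.e ((s ^ k) d1))
    rw [hs2, hm']; exact hp2
  · change dot3 (σ • ψ) (σ • R.e ((s ^ (k + 1)) d1)) < 0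
    rw [hs2, e2, hm']; exact hn2

end vertices

end Pool.Agent.FBK
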